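import Pool.Agent.V8H99.D3.Tor

/-! Low energy states are spread out around good sites, dimension three, sharp scale. -/

set_option autoImplicit false
set_option linter.unusedSectionVars false

open scoped BigOperators
open Polynomial MeasureTheory

namespace Pool.Agent.V8H99.D3.Loc

open Pool.Agent.H4R2.AE Pool.Agent.H541R3.AND.Heat Pool.Agent.H541R3.AND.Trans
  Pool.Agent.H541R3.AND.Deloc Pool.Agent.V8H99.D3.Cheb Pool.Agent.V8H99.D3.Tor

/-- `p(Q) δ` on the lattice -/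
noncomputable def PZ {d : ℕ} (p : ℝ[X]) (c0 b lam : ℝ) (V : Zd d → ℝ) (x0 : Zd d) (x : Zd d) : ℝ :=
  ∑ j ∈ Finset.range (p.natDegree + 1), p.coeff j * (QZ c0 b lam V)^[j] (Pi.single x0 1) x

theorem aeval_T {d L : ℕ} [NeZero L] (p : ℝ[X]) (c0 b lam : ℝ) (V : T d L → ℝ) (f : T d L → ℝ)
    (t : T d L) : aeval (QTl c0 b lam V) p f t =
      ∑ j ∈ Finset.range (p.natDegree + 1), p.coeff j * (QT c0 b lam V)^[j] f t := by
  rw [aeval_eq_sum_range, LinearMap.sum_apply, Finset.sum_apply]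
  refine Finset.sum_congr rfl fun j _ => ?_
  rw [LinearMap.smul_apply, Pi.smul_apply, smul_eq_mul, Module.End.pow_apply]
  rfl

/-- support and norm -/
theorem props {d : ℕ} (p : ℝ[X]) (h : ℕ) (c0 b lam : ℝ) (V : Zd d → ℝ) (x0 : Zd d)
    (hp : p.natDegree ≤ h) :
    (∀ x, x ∉ box h x0 → PZ p c0 b lam V x0 x = 0) ∧
    ∑ x ∈ box h x0, (PZ p c0 b lam V x0 x) ^ 2 =
      ∑ t : T d (2 * h + 1), (aeval (QTl c0 b lam (VT h V x0)) p (Pi.single 0 1) t) ^ 2 := by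
  have hj : ∀ j ∈ Finset.range (p.natDegree + 1), j ≤ h := fun j hj => by
    have := Finset.mem_range.1 hj
    omega
  refine ⟨fun x hx => ?_, ?_⟩
  · unfold PZ
    refine Finset.sum_eq_zero fun j hjm => ?_
    rw [(iter_props h c0 b lam V x0 j (hj j hjm)).1 x hx, mul_zero]
  · rw [sum_box]
    refine Finset.sum_congr rfl fun t _ => ?_
    congr 1
    rw [aeval_T]
    unfold PZ
    refine Finset.sum_congr rfl fun j hjm => ?_
    congr 1
    rw [(matching h c0 b lam V x0 j (hj j hjm)).1 (lift t) (lift_abs t), pr_lift]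

theorem pair_eig {d : ℕ} (p : ℝ[X]) (c0 b lam E : ℝ) (V φ : Zd d → ℝ) (x0 : Zd d)
    (hE : ∀ x, HZ lam V φ x = E * φ x) :
    ∑' x, PZ p c0 b lam V x0 x * φ x = p.eval (q c0 b E) * φ x0 := by
  unfold PZ
  have hs : ∀ j ∈ Finset.range (p.natDegree + 1), Summable fun x =>
      p.coeff j * ((QZ c0 b lam V)^[j] (Pi.single x0 1) x * φ x) := fun j _ =>
    (((FS.single x0).iter c0 b lam V j).summable φ).mul_left _
  have e1 : (fun x => (∑ j ∈ Finset.range (p.natDegree + 1),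
      p.coeff j * (QZ c0 b lam V)^[j] (Pi.single x0 1) x) * φ x) = fun x =>
      ∑ j ∈ Finset.range (p.natDegree + 1),
        p.coeff j * ((QZ c0 b lam V)^[j] (Pi.single x0 1) x * φ x) := by
    funext x
    rw [Finset.sum_mul]
    exact Finset.sum_congr rfl fun j _ => by ring
  rw [e1, Summable.tsum_finsetSum hs, eval_eq_sum_range, Finset.sum_mul]
  refine Finset.sum_congr rfl fun j _ => ?_
  rw [tsum_mul_left, symm_iter c0 b lam V φ j _ (FS.single x0), pair_single,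
    qz_eig c0 b lam E V φ hE j]
  ring

theorem sq_moment {d : ℕ} (p : ℝ[X]) (c0 b lam : ℝ) (V : Zd d → ℝ) (x0 : Zd d) (h : ℕ)
    (hp : p.natDegree ≤ h) (m : Measure ℝ)
    (hm : ∀ j : ℕ, Integrable (fun E : ℝ => E ^ j) m ∧
      ∫ E, E ^ j ∂m = (HZ lam V)^[j] (Pi.single x0 1) x0) :
    Integrable (fun E : ℝ => (p.eval (q c0 b E)) ^ 2) m ∧
      ∫ E, (p.eval (q c0 b E)) ^ 2 ∂m = ∑ x ∈ box h x0, (PZ p c0 b lam V x0 x) ^ 2 := by
  have hq : ∀ n : ℕ, Integrable (fun E : ℝ => q c0 b E ^ n) m ∧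
      ∫ E, q c0 b E ^ n ∂m = (QZ c0 b lam V)^[n] (Pi.single x0 1) x0 := by
    intro n
    have := moments c0 b lam V x0 m hm n 0
    simpa using this
  have e1 : (fun E : ℝ => (p.eval (q c0 b E)) ^ 2) = fun E =>
      ∑ i ∈ Finset.range (p.natDegree + 1), ∑ j ∈ Finset.range (p.natDegree + 1),
        p.coeff i * p.coeff j * q c0 b E ^ (i + j) := by
    funext E
    rw [eval_eq_sum_range, sq, Finset.sum_mul_sum]
    exact Finset.sum_congr rfl fun i _ => Finset.sum_congr rfl fun j _ => by rw [pow_add]; ring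
  rw [e1]
  have hi : ∀ i ∈ Finset.range (p.natDegree + 1), ∀ j ∈ Finset.range (p.natDegree + 1),
      Integrable (fun E : ℝ => p.coeff i * p.coeff j * q c0 b E ^ (i + j)) m :=
    fun i _ j _ => (hq (i + j)).1.const_mul _
  refine ⟨integrable_finset_sum _ fun i h1 => integrable_finset_sum _ fun j h2 => hi i h1 j h2, ?_⟩
  rw [integral_finset_sum _ fun i h1 => integrable_finset_sum _ fun j h2 => hi i h1 j h2]
  have e2 : ∀ x, (PZ p c0 b lam V x0 x) ^ 2 = ∑ i ∈ Finset.range (p.natDegree + 1),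
      ∑ j ∈ Finset.range (p.natDegree + 1), p.coeff i * p.coeff j *
        ((QZ c0 b lam V)^[i] (Pi.single x0 1) x * (QZ c0 b lam V)^[j] (Pi.single x0 1) x) := by
    intro x
    unfold PZ
    rw [sq, Finset.sum_mul_sum]
    exact Finset.sum_congr rfl fun i _ => Finset.sum_congr rfl fun j _ => by ring
  rw [Finset.sum_congr rfl fun x _ => e2 x, Finset.sum_comm]
  refine Finset.sum_congr rfl fun i h1 => ?_
  rw [integral_finset_sum _ fun j h2 => hi i h1 j h2, Finset.sum_comm]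
  refine Finset.sum_congr rfl fun j h2 => ?_
  rw [integral_const_mul, (hq (i + j)).2, ← Finset.mul_sum]
  congr 1
  have hih : i ≤ h := by have := Finset.mem_range.1 h1; omega
  have e3 : (QZ c0 b lam V)^[i + j] (Pi.single x0 1) x0 =
      ∑' x, (QZ c0 b lam V)^[i] (Pi.single x0 1) x * (QZ c0 b lam V)^[j] (Pi.single x0 1) x := by
    rw [symm_iter c0 b lam V _ i _ (FS.single x0), pair_single, Function.iterate_add_apply]
  rw [e3]
  exact tsum_eq_sum fun x hx => by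
    rw [(iter_props h c0 b lam V x0 i hih).1 x hx, zero_mul]

/-- numerical choice of the degree -/
theorem steps3 (κ : ℝ) (hκ : 0 < κ) (hκ1 : κ ≤ 1) (h : ℕ) (hh : 1 / (h : ℝ) ^ 2 ≤ κ)
    (hpos : 0 < h) : ∃ n : ℕ, 0 < n ∧ n ≤ h ∧ (n : ℝ) ^ 2 * κ ≤ 1 ∧ 1 ≤ 2 * (n : ℝ) * √κ := by
  have hh0 : (0 : ℝ) < h := by exact_mod_cast hpos
  have hs := Real.sqrt_pos.2 hκ
  have hs2 := Real.sq_sqrt hκ.le
  have hs1 : √κ ≤ 1 := Real.sqrt_le_one.2 hκ1
  refine ⟨⌊1 / √κ⌋₊, ?_, ?_, ?_, ?_⟩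
  · apply Nat.floor_pos.2
    rw [le_div_iff₀ hs]
    linarith
  · have h1 : 1 / √κ ≤ h := by
      rw [div_le_iff₀ hs]
      rw [div_le_iff₀ (by positivity)] at hh
      have h2 : 1 ≤ (h * √κ) ^ 2 := by rw [mul_pow, hs2]; linarith
      nlinarith [mul_pos hh0 hs]
    exact_mod_cast (Nat.floor_le (by positivity)).trans h1
  · have h3 := Nat.floor_le (show 0 ≤ 1 / √κ by positivity)
    have h4 : (⌊1 / √κ⌋₊ : ℝ) ^ 2 ≤ (1 / √κ) ^ 2 := pow_le_pow_left₀ (Nat.cast_nonneg _) h3 2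
    calc (⌊1 / √κ⌋₊ : ℝ) ^ 2 * κ ≤ (1 / √κ) ^ 2 * κ := mul_le_mul_of_nonneg_right h4 hκ.le
      _ = 1 := by
        rw [div_pow, hs2]
        field_simp
  · have h3 := Nat.lt_floor_add_one (1 / √κ)
    have h2 : 1 ≤ 1 / √κ := by rw [le_div_iff₀ hs]; linarith
    have h4 : (1 : ℝ) ≤ (⌊1 / √κ⌋₊ : ℝ) := by exact_mod_cast Nat.floor_pos.2 h2
    have h5 : 1 / √κ ≤ 2 * (⌊1 / √κ⌋₊ : ℝ) := by linarith
    have h6 := mul_le_mul_of_nonneg_right h5 hs.le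
    rwa [one_div_mul_cancel hs.ne'] at h6

theorem main3 (K : ℝ) (hK : 0 ≤ K) : ∃ C : ℝ, 0 < C ∧
    ∀ (h : ℕ) (lam Es : ℝ) (V : Zd 3 → ℝ) (x0 : Zd 3), 0 < h → GoodAt h lam K Es V x0 →
      ∀ κ : ℝ, 1 / (h : ℝ) ^ 2 ≤ κ → κ ≤ 1 →
      (∀ E : ℝ, E ≤ Es + κ → ∀ φ : Zd 3 → ℝ, Summable (fun x => φ x ^ 2) →
        (∀ x, HZ lam V φ x = E * φ x) → φ x0 ^ 2 ≤ C * κ ^ (3 / 2 : ℝ) * ∑' x, φ x ^ 2) ∧
      ∀ m : Measure ℝ, IsFiniteMeasure m → (∀ j : ℕ, Integrable (fun E : ℝ => E ^ j) m ∧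
        ∫ E, E ^ j ∂m = (HZ lam V)^[j] (Pi.single x0 1) x0) →
        m.real (Set.Iic (Es + κ)) ≤ C * κ ^ (3 / 2 : ℝ) := by
  set b : ℝ := 25 + 2 * (K + 1) with hb
  obtain ⟨C, hC, hT⟩ := kernel_torus b (by linarith)
  refine ⟨4 * C * 8, by positivity, ?_⟩
  intro h lam Es V x0 hpos hgood κ hκh hκ1
  obtain ⟨E0, ψ, hE0, hψ, heig⟩ := hgood
  have hh0 : (0 : ℝ) < h := by exact_mod_cast hpos
  have hκ0 : 0 < κ := lt_of_lt_of_le (by positivity) hκh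
  obtain ⟨n, hn0, hnh, hn1, hn2⟩ := steps3 κ hκ0 hκ1 h hκh hpos
  have hnpos : (0 : ℝ) < n := by exact_mod_cast hn0
  have hLκ : 1 / ((2 * h + 1 : ℕ) : ℝ) ^ 2 ≤ κ := by
    refine le_trans ?_ hκh
    apply one_div_le_one_div_of_le (by positivity)
    push_cast
    nlinarith
  have hheat := hT (2 * h + 1) lam E0 (VT h V x0) ψ (fun x => (hψ x).1) (fun x => (hψ x).2) heig 0 n
    hn0 (by omega)
  have hdeg : (S n).natDegree ≤ h := (S_deg n).trans hnh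
  obtain ⟨hp1, hp2⟩ := props (S n) h E0 b lam V x0 hdeg
  rw [← hp2] at hheat
  set f := PZ (S n) E0 b lam V x0 with hf
  have hS0 : 0 ≤ ∑ x ∈ box h x0, f x ^ 2 := Finset.sum_nonneg fun x _ => sq_nonneg _
  -- lower bound of the kernel
  have hq : ∀ E : ℝ, E ≤ Es + κ → (n : ℝ) ^ 2 / 2 ≤ (S n).eval (q E0 b E) := by
    intro E hE
    have hb0 : 0 < b := by linarith
    have h1 : 1 - (K + 1) * κ / b ≤ q E0 b E := by
      unfold q
      have h2 : K / ((2 * h + 1 : ℕ) : ℝ) ^ 2 ≤ K * κ := by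
        rw [div_eq_mul_one_div]
        exact mul_le_mul_of_nonneg_left hLκ hK
      have h3 := (abs_le.1 hE0).1
      have h4 : E - E0 ≤ (K + 1) * κ := by linarith
      have h5 : 1 / b * (E - E0) ≤ 1 / b * ((K + 1) * κ) :=
        mul_le_mul_of_nonneg_left h4 (by positivity)
      have e : 1 / b * ((K + 1) * κ) = (K + 1) * κ / b := by ring
      linarith
    have hc0 : 0 ≤ (K + 1) * κ / b := by positivity
    have hc2 : (K + 1) * κ / b ≤ 1 / 2 * κ := by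
      rw [div_le_iff₀ hb0]
      nlinarith
    have h6 := S_low n (q E0 b E) ((K + 1) * κ / b) hc0 (by linarith) h1
    refine le_trans ?_ h6
    have h7 : (n : ℝ) ^ 2 * ((K + 1) * κ / b) ≤ 1 / 2 := by
      calc (n : ℝ) ^ 2 * ((K + 1) * κ / b) ≤ (n : ℝ) ^ 2 * (1 / 2 * κ) := by gcongr
        _ ≤ 1 / 2 := by nlinarith
    have h8 : 0 ≤ (n : ℝ) ^ 2 := by positivity
    nlinarith
  -- the power of `κ`
  have hpow : C * n ≤ (n : ℝ) ^ 4 * (C * (8 * κ ^ (3 / 2 : ℝ))) := by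
    have e1 : κ ^ (3 / 2 : ℝ) = √κ ^ 3 := by
      rw [Real.sqrt_eq_rpow, ← Real.rpow_natCast, ← Real.rpow_mul hκ0.le]
      norm_num
    rw [e1]
    have h3 : 1 ≤ (2 * (n : ℝ) * √κ) ^ 3 := one_le_pow₀ hn2
    have h4 : (n : ℝ) ^ 4 * (C * (8 * √κ ^ 3)) = C * n * (2 * (n : ℝ) * √κ) ^ 3 := by ring
    rw [h4]
    have : 0 ≤ C * n := by positivity
    nlinarith
  have hn4 : (0 : ℝ) < (n : ℝ) ^ 4 := by positivity
  refine ⟨fun E hE φ hφ hφE => ?_, fun m _ hm => ?_⟩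
  · have h1 := pair_eig (S n) E0 b lam E V φ x0 hφE
    rw [← hf] at h1
    have h2 : ∑' x, f x * φ x = ∑ x ∈ box h x0, f x * φ x :=
      tsum_eq_sum fun x hx => by rw [hp1 x hx, zero_mul]
    rw [h2] at h1
    have h3 := Finset.sum_mul_sq_le_sq_mul_sq (box h x0) f φ
    rw [h1] at h3
    have h4 : ∑ x ∈ box h x0, φ x ^ 2 ≤ ∑' x, φ x ^ 2 :=
      hφ.sum_le_tsum _ (fun x _ => sq_nonneg _)
    have h5 : 0 ≤ ∑' x, φ x ^ 2 := tsum_nonneg fun x => sq_nonneg _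
    have h6 := hq E hE
    have h7 : ((n : ℝ) ^ 2 / 2) ^ 2 * φ x0 ^ 2 ≤ ((S n).eval (q E0 b E) * φ x0) ^ 2 := by
      rw [mul_pow]
      exact mul_le_mul_of_nonneg_right (pow_le_pow_left₀ (by positivity) h6 2) (sq_nonneg _)
    have h8 : (∑ x ∈ box h x0, f x ^ 2) * ∑ x ∈ box h x0, φ x ^ 2 ≤
        (n : ℝ) ^ 4 * (C * (8 * κ ^ (3 / 2 : ℝ))) * ∑' x, φ x ^ 2 :=
      mul_le_mul (hheat.trans hpow) h4 (Finset.sum_nonneg fun x _ => sq_nonneg _) (by positivity)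
    have h9 : (n : ℝ) ^ 4 * (φ x0 ^ 2) ≤ (n : ℝ) ^ 4 * (4 * C * 8 * κ ^ (3 / 2 : ℝ) *
        ∑' x, φ x ^ 2) := by
      have e5 : ((n : ℝ) ^ 2 / 2) ^ 2 * φ x0 ^ 2 = (n : ℝ) ^ 4 * φ x0 ^ 2 / 4 := by ring
      rw [e5] at h7
      have e6 : (n : ℝ) ^ 4 * (4 * C * 8 * κ ^ (3 / 2 : ℝ) * ∑' x, φ x ^ 2) =
        4 * ((n : ℝ) ^ 4 * (C * (8 * κ ^ (3 / 2 : ℝ))) * ∑' x, φ x ^ 2) := by ring
      rw [e6]
      linarith
    exact le_of_mul_le_mul_left h9 hn4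
  · obtain ⟨hi, h1⟩ := sq_moment (S n) E0 b lam V x0 h hdeg m hm
    rw [← hf] at h1
    have h3 : m.real (Set.Iic (Es + κ)) * ((n : ℝ) ^ 4 / 4) ≤
        ∫ E, ((S n).eval (q E0 b E)) ^ 2 ∂m := by
      have h4 : ∫ E in Set.Iic (Es + κ), ((n : ℝ) ^ 4 / 4 : ℝ) ∂m ≤
          ∫ E in Set.Iic (Es + κ), ((S n).eval (q E0 b E)) ^ 2 ∂m := by
        refine setIntegral_mono_on (integrable_const _).integrableOn hi.integrableOn
          measurableSet_Iic fun E hE => ?_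
        have h5 := pow_le_pow_left₀ (by positivity) (hq E hE) 2
        refine le_trans (le_of_eq ?_) h5
        ring
      rw [setIntegral_const, smul_eq_mul] at h4
      refine h4.trans (setIntegral_le_integral hi ?_)
      exact Filter.Eventually.of_forall fun E => sq_nonneg _
    rw [h1] at h3
    have h9 : (n : ℝ) ^ 4 * m.real (Set.Iic (Es + κ)) ≤
        (n : ℝ) ^ 4 * (4 * C * 8 * κ ^ (3 / 2 : ℝ)) := by
      have := hheat.trans hpow
      have e6 : (n : ℝ) ^ 4 * (4 * C * 8 * κ ^ (3 / 2 : ℝ)) =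
        4 * ((n : ℝ) ^ 4 * (C * (8 * κ ^ (3 / 2 : ℝ)))) := by ring
      rw [e6]
      linarith
    exact le_of_mul_le_mul_left h9 hn4

end Pool.Agent.V8H99.D3.Loc
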