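import Mathlib

/-! The Fejér kernel as a polynomial, and its norm on symmetric contractions. -/

set_option autoImplicit false

open scoped BigOperators
open Polynomial

namespace Pool.Agent.V8H99.D3.Cheb

/-- Pell identity -/
theorem pell (n : ℕ) : (Chebyshev.T ℝ ((n : ℤ) + 1)) ^ 2 +
    (1 - X ^ 2) * (Chebyshev.U ℝ (n : ℤ)) ^ 2 = 1 := by
  induction n with
  | zero => simp
  | succ n ih =>
    have h1 := Chebyshev.T_eq_X_mul_T_sub_pol_U ℝ (n : ℤ)
    have h2 := Chebyshev.U_eq_X_mul_U_add_T ℝ (n : ℤ)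
    push_cast
    have e1 : ((n : ℤ) + 1 + 1) = (n : ℤ) + 2 := by ring
    rw [e1, h1, h2]
    linear_combination ih

/-- Dirichlet kernels -/
noncomputable def D : ℕ → ℝ[X]
  | 0 => 1
  | k + 1 => D k + 2 * Chebyshev.T ℝ ((k : ℤ) + 1)

theorem D_mul (k : ℕ) : (1 - X) * D k = Chebyshev.T ℝ (k : ℤ) - Chebyshev.T ℝ ((k : ℤ) + 1) := by
  induction k with
  | zero => simp [D]
  | succ k ih =>
    have h1 := Chebyshev.T_add_two ℝ (k : ℤ)
    unfold D
    push_cast
    have e1 : ((k : ℤ) + 1 + 1) = (k : ℤ) + 2 := by ring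
    rw [e1, h1]
    linear_combination ih

/-- `n²` times the Fejér kernel -/
noncomputable def S (n : ℕ) : ℝ[X] := ∑ k ∈ Finset.range n, D k

theorem S_mul (n : ℕ) : (1 - X) * S n = 1 - Chebyshev.T ℝ (n : ℤ) := by
  unfold S
  rw [Finset.mul_sum]
  induction n with
  | zero => simp
  | succ n ih =>
    rw [Finset.sum_range_succ, ih, D_mul]
    push_cast
    ring

theorem D_deg (k : ℕ) : (D k).natDegree ≤ k := by
  induction k with
  | zero => simp [D]
  | succ k ih =>
    unfold D
    refine (natDegree_add_le _ _).trans (max_le (ih.trans (Nat.le_succ _)) ?_)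
    have e : (2 : ℝ[X]) = C 2 := (map_ofNat C 2).symm
    rw [e]
    refine (natDegree_C_mul_le _ _).trans ?_
    rw [Chebyshev.natDegree_T]
    omega

theorem S_deg (n : ℕ) : (S n).natDegree ≤ n := by
  unfold S
  refine natDegree_sum_le_of_forall_le _ _ fun k hk => ?_
  exact (D_deg k).trans (Finset.mem_range.1 hk).le

/-! scalar bounds -/

theorem abs_sin_nat (n : ℕ) (a : ℝ) : |Real.sin (n * a)| ≤ n * |Real.sin a| := by
  induction n with
  | zero => simp
  | succ n ih =>
    push_cast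
    rw [add_mul, one_mul, Real.sin_add]
    refine (abs_add_le _ _).trans ?_
    rw [abs_mul, abs_mul]
    have h1 := Real.abs_cos_le_one a
    have h2 := Real.abs_cos_le_one (n * a)
    have h3 := abs_nonneg (Real.sin a)
    have h4 := abs_nonneg (Real.sin (n * a))
    nlinarith [mul_le_mul_of_nonneg_left h1 h4, mul_le_mul_of_nonneg_right h2 h3]

theorem T_low (n : ℕ) (x : ℝ) (c : ℝ) (hc : 0 ≤ c) (hc2 : c ≤ 2) (hx : 1 - c ≤ x) :
    1 - (n : ℝ) ^ 2 * c ≤ (Chebyshev.T ℝ (n : ℤ)).eval x := by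
  rcases le_total x 1 with h | h
  · have hx1 : -1 ≤ x := by linarith
    have hcos : Real.cos (Real.arccos x) = x := Real.cos_arccos hx1 h
    set θ := Real.arccos x with hθ
    rw [← hcos, Chebyshev.T_real_cos]
    push_cast
    have e1 : Real.cos (n * θ) = 1 - 2 * Real.sin (n * (θ / 2)) ^ 2 := by
      have : (n : ℝ) * θ = 2 * (n * (θ / 2)) := by ring
      rw [this, Real.cos_two_mul, Real.sin_sq]
      ring
    have e2 : x = 1 - 2 * Real.sin (θ / 2) ^ 2 := by
      have : θ = 2 * (θ / 2) := by ring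
      rw [← hcos]
      conv_lhs => rw [this]
      rw [Real.cos_two_mul, Real.sin_sq]
      ring
    have h1 := abs_sin_nat n (θ / 2)
    have h2 : Real.sin (n * (θ / 2)) ^ 2 ≤ (n : ℝ) ^ 2 * Real.sin (θ / 2) ^ 2 := by
      rw [← sq_abs (Real.sin (n * (θ / 2))), ← sq_abs (Real.sin (θ / 2)), ← mul_pow]
      exact pow_le_pow_left₀ (abs_nonneg _) h1 2
    rw [e1]
    have h3 : 2 * Real.sin (θ / 2) ^ 2 ≤ c := by linarith
    nlinarith [mul_le_mul_of_nonneg_left h3 (sq_nonneg (n : ℝ))]
  · have h1 : (1 : ℝ) ≤ (Chebyshev.T ℝ (n : ℤ)).eval x := by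
      have h2 : Real.cosh (Real.arcosh x) = x := Real.cosh_arcosh h
      rw [← h2, Chebyshev.T_real_cosh]
      exact Real.one_le_cosh _
    have : 0 ≤ (n : ℝ) ^ 2 * c := by positivity
    linarith

theorem D_low (k : ℕ) (x c : ℝ) (hc : 0 ≤ c) (hc2 : c ≤ 2) (hx : 1 - c ≤ x) (n : ℕ) (hk : k ≤ n) :
    (2 * k + 1) * (1 - (n : ℝ) ^ 2 * c) ≤ (D k).eval x := by
  induction k with
  | zero =>
    simp only [D, eval_one]
    have : 0 ≤ (n : ℝ) ^ 2 * c := by positivity
    push_cast
    linarith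
  | succ k ih =>
    have h1 := ih (by omega)
    have h2 := T_low (k + 1) x c hc hc2 hx
    have h3 : ((k + 1 : ℕ) : ℝ) ^ 2 ≤ (n : ℝ) ^ 2 := by
      have : ((k + 1 : ℕ) : ℝ) ≤ n := by exact_mod_cast hk
      gcongr
    have h4 := mul_le_mul_of_nonneg_right h3 hc
    unfold D
    rw [eval_add, eval_mul]
    have e : (eval x (2 : ℝ[X])) = 2 := by simp
    rw [e]
    push_cast at h1 h2 h4 ⊢
    linarith

theorem S_low (n : ℕ) (x c : ℝ) (hc : 0 ≤ c) (hc2 : c ≤ 2) (hx : 1 - c ≤ x) :
    (n : ℝ) ^ 2 * (1 - (n : ℝ) ^ 2 * c) ≤ (S n).eval x := by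
  unfold S
  rw [eval_finsetSum]
  have h1 : ∑ k ∈ Finset.range n, (2 * (k : ℝ) + 1) * (1 - (n : ℝ) ^ 2 * c) ≤
      ∑ k ∈ Finset.range n, (D k).eval x :=
    Finset.sum_le_sum fun k hk => D_low k x c hc hc2 hx n (Finset.mem_range.1 hk).le
  refine le_trans (le_of_eq ?_) h1
  rw [← Finset.sum_mul]
  congr 1
  induction n with
  | zero => simp
  | succ m ih =>
    rw [Finset.sum_range_succ]
    have h2 : (m : ℝ) ^ 2 = ∑ k ∈ Finset.range m, (2 * (k : ℝ) + 1) := by
      clear ih h1
      induction m with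
      | zero => simp
      | succ m ih => rw [Finset.sum_range_succ, ← ih]; push_cast; ring
    rw [← h2]
    push_cast
    ring

/-! ### symmetric operators on a finite set -/

section op
variable {ι : Type} [Fintype ι]

/-- the inner product -/
noncomputable def ip (f g : ι → ℝ) : ℝ := ∑ x, f x * g x

theorem ip_add_left (f g h : ι → ℝ) : ip (f + g) h = ip f h + ip g h := by
  unfold ip
  rw [← Finset.sum_add_distrib]
  exact Finset.sum_congr rfl fun x _ => by rw [Pi.add_apply]; ring

theorem ip_smul_left (a : ℝ) (f g : ι → ℝ) : ip (a • f) g = a * ip f g := by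
  unfold ip
  rw [Finset.mul_sum]
  exact Finset.sum_congr rfl fun x _ => by rw [Pi.smul_apply, smul_eq_mul]; ring

theorem ip_comm (f g : ι → ℝ) : ip f g = ip g f := by
  unfold ip
  exact Finset.sum_congr rfl fun x _ => mul_comm _ _

theorem ip_add_right (f g h : ι → ℝ) : ip h (f + g) = ip h f + ip h g := by
  rw [ip_comm, ip_add_left, ip_comm f, ip_comm g]

theorem ip_smul_right (a : ℝ) (f g : ι → ℝ) : ip g (a • f) = a * ip g f := by
  rw [ip_comm, ip_smul_left, ip_comm]

theorem ip_self_nonneg (f : ι → ℝ) : 0 ≤ ip f f :=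
  Finset.sum_nonneg fun x _ => mul_self_nonneg _

/-- the norm -/
noncomputable def nm (f : ι → ℝ) : ℝ := Real.sqrt (ip f f)

theorem nm_eq (f : ι → ℝ) : nm f = ‖(WithLp.toLp 2 f : EuclideanSpace ℝ ι)‖ := by
  unfold nm ip
  rw [EuclideanSpace.norm_eq]
  congr 1
  exact Finset.sum_congr rfl fun x _ => by simp [sq]

theorem nm_add (f g : ι → ℝ) : nm (f + g) ≤ nm f + nm g := by
  rw [nm_eq, nm_eq, nm_eq]
  exact norm_add_le (WithLp.toLp 2 f : EuclideanSpace ℝ ι) (WithLp.toLp 2 g)

theorem nm_smul (a : ℝ) (f : ι → ℝ) : nm (a • f) = |a| * nm f := by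
  rw [nm_eq, nm_eq]
  exact norm_smul a (WithLp.toLp 2 f : EuclideanSpace ℝ ι)

theorem nm_sub (f g : ι → ℝ) : nm (f - g) ≤ nm f + nm g := by
  rw [nm_eq, nm_eq, nm_eq]
  exact norm_sub_le (WithLp.toLp 2 f : EuclideanSpace ℝ ι) (WithLp.toLp 2 g)

theorem nm_nonneg (f : ι → ℝ) : 0 ≤ nm f := Real.sqrt_nonneg _

theorem nm_sq (f : ι → ℝ) : nm f ^ 2 = ip f f := Real.sq_sqrt (ip_self_nonneg f)

variable (A : Module.End ℝ (ι → ℝ)) (hA : ∀ f g, ip (A f) g = ip f (A g))

include hA in
theorem symm_pow (n : ℕ) : ∀ f g : ι → ℝ, ip ((A ^ n) f) g = ip f ((A ^ n) g) := by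
  induction n with
  | zero => intro f g; simp
  | succ n ih =>
    intro f g
    have e1 : (A ^ (n + 1)) f = (A ^ n) (A f) := by rw [pow_succ, Module.End.mul_apply]
    have e2 : (A ^ (n + 1)) g = A ((A ^ n) g) := by rw [pow_succ', Module.End.mul_apply]
    rw [e1, e2, ih (A f) g, hA]

include hA in
theorem symm_poly (p : ℝ[X]) : ∀ f g : ι → ℝ, ip (aeval A p f) g = ip f (aeval A p g) := by
  induction p using Polynomial.induction_on' with
  | add p q hp hq =>
    intro f g
    rw [map_add, LinearMap.add_apply, LinearMap.add_apply, ip_add_left, ip_add_right, hp, hq]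
  | monomial n a =>
    intro f g
    rw [aeval_monomial]
    simp only [Module.End.mul_apply, Module.algebraMap_end_apply]
    rw [ip_smul_left, ip_smul_right, symm_pow A hA n]

include hA in
/-- the Chebyshev polynomials of a contraction are contractions -/
theorem T_contr (h1 : ∀ f, ip (A f) (A f) ≤ ip f f) (n : ℕ) (g : ι → ℝ) :
    nm (aeval A (Chebyshev.T ℝ (n : ℤ)) g) ≤ nm g := by
  rcases n with _ | n
  · simp
  · apply Real.sqrt_le_sqrt
    have hp := congrArg (fun p => aeval A p g) (pell n)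
    simp only [map_add, map_mul, map_pow, map_sub, map_one, aeval_X] at hp
    have h2 := congrArg (fun f => ip f g) hp
    simp only [LinearMap.add_apply, Module.End.mul_apply, LinearMap.sub_apply, Module.End.one_apply]
      at h2
    rw [ip_add_left] at h2
    set t := aeval A (Chebyshev.T ℝ ((n : ℤ) + 1)) with ht
    set u := aeval A (Chebyshev.U ℝ (n : ℤ)) with hu
    have e1 : ip ((t ^ 2) g) g = ip (t g) (t g) := by
      rw [sq, Module.End.mul_apply, ht, symm_poly A hA, ← ht]
    have hcomm : (1 - A ^ 2) * u ^ 2 = u * ((1 - A ^ 2) * u) := by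
      have hc : Commute ((1 - A ^ 2)) u := by
        have e : (1 - A ^ 2 : Module.End ℝ (ι → ℝ)) = aeval A (1 - X ^ 2 : ℝ[X]) := by simp
        rw [e, hu]
        show _ * _ = _ * _
        rw [← map_mul, ← map_mul, mul_comm]
      rw [sq u, ← mul_assoc, hc.eq, mul_assoc, hc.eq]
    have e2 : ip ((u ^ 2) g - (A ^ 2) ((u ^ 2) g)) g = ip (u g) (u g) - ip (A (u g)) (A (u g)) := by
      have e3 : (u ^ 2) g - (A ^ 2) ((u ^ 2) g) = u ((u g) - (A ^ 2) (u g)) := by
        have := congrArg (fun B => B g) hcomm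
        simp only [Module.End.mul_apply, LinearMap.sub_apply, Module.End.one_apply] at this
        exact this
      rw [e3, hu, symm_poly A hA, ← hu]
      have e4 : ip (u g - (A ^ 2) (u g)) (u g) = ip (u g) (u g) - ip ((A ^ 2) (u g)) (u g) := by
        have := ip_add_left (u g - (A ^ 2) (u g)) ((A ^ 2) (u g)) (u g)
        rw [sub_add_cancel] at this
        linarith
      rw [e4, sq, Module.End.mul_apply, hA]
    rw [e1] at h2
    have e5 : ip ((u ^ 2) g - (A ^ 2) ((u ^ 2) g)) g = ip g g - ip (t g) (t g) := by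
      linarith
    rw [e2] at e5
    have h3 := h1 (u g)
    push_cast
    linarith

include hA in
theorem D_contr (h1 : ∀ f, ip (A f) (A f) ≤ ip f f) (k : ℕ) (g : ι → ℝ) :
    nm (aeval A (D k) g) ≤ (2 * k + 1) * nm g := by
  induction k with
  | zero => simp [D]
  | succ k ih =>
    have h2 := T_contr A hA h1 (k + 1) g
    unfold D
    rw [map_add, map_mul, LinearMap.add_apply, Module.End.mul_apply]
    have e : (aeval A) (2 : ℝ[X]) = (2 : ℝ) • (1 : Module.End ℝ (ι → ℝ)) := by
      have : (2 : ℝ[X]) = C 2 := (map_ofNat C 2).symm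
      rw [this, aeval_C]
      rfl
    rw [e, LinearMap.smul_apply, Module.End.one_apply]
    refine (nm_add _ _).trans ?_
    rw [nm_smul]
    push_cast at h2 ⊢
    rw [abs_of_pos (by norm_num : (0 : ℝ) < 2)]
    linarith

include hA in
theorem S_contr (h1 : ∀ f, ip (A f) (A f) ≤ ip f f) (n : ℕ) (g : ι → ℝ) :
    nm (aeval A (S n) g) ≤ (n : ℝ) ^ 2 * nm g := by
  induction n with
  | zero => simp [S, nm, ip]
  | succ n ih =>
    have e : S (n + 1) = S n + D n := by
      unfold S
      rw [Finset.sum_range_succ]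
    rw [e, map_add, LinearMap.add_apply]
    refine (nm_add _ _).trans ?_
    have h2 := D_contr A hA h1 n g
    push_cast
    linarith

include hA in
/-- **the kernel applied to a vector is controlled by the resolvent** -/
theorem kernel_bound (h1 : ∀ f, ip (A f) (A f) ≤ ip f f) (n : ℕ) (κ : ℝ) (hκ : 0 ≤ κ)
    (R g : ι → ℝ) (hR : R - A R + κ • R = g) :
    nm (aeval A (S n) g) ≤ (κ * (n : ℝ) ^ 2 + 2) * nm R := by
  have e1 : aeval A (S n) g = κ • aeval A (S n) R +
      (R - aeval A (Chebyshev.T ℝ (n : ℤ)) R) := by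
    rw [← hR, map_add, map_smul, add_comm]
    congr 1
    have h2 := congrArg (fun p => aeval A p R) (S_mul n)
    simp only [map_mul, map_sub, map_one, aeval_X, Module.End.mul_apply, LinearMap.sub_apply,
      Module.End.one_apply] at h2
    rw [← h2, map_sub]
    congr 1
    have h3 : A * aeval A (S n) = aeval A (S n) * A := by
      have e : A = aeval A (X : ℝ[X]) := by simp
      conv_lhs => rw [e]
      conv_rhs => rw [e]
      simp only [aeval_X]
      have : aeval A ((X : ℝ[X]) * S n) = aeval A (S n * X) := by rw [mul_comm]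
      simpa using this
    exact (congrArg (fun B => B R) h3).symm
  rw [e1]
  refine (nm_add _ _).trans ?_
  rw [nm_smul, abs_of_nonneg hκ]
  have h2 := S_contr A hA h1 n R
  have h3 := nm_sub R (aeval A (Chebyshev.T ℝ (n : ℤ)) R)
  have h4 := T_contr A hA h1 n R
  have h5 := mul_le_mul_of_nonneg_left h2 hκ
  nlinarith

end op

end Pool.Agent.V8H99.D3.Cheb
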