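import Pool.Agent.H4R2.LO.Fin

/-! Deterministic energies on tori of different sizes, for approximate ground states. -/

set_option autoImplicit false
set_option linter.unusedSectionVars false

open scoped BigOperators
open MeasureTheory

namespace Pool.Agent.V8H99.D3.Cmp

open Pool.Agent.H4R2 Pool.Agent.H4R2.AE Pool.Agent.H4R2.LO.El

/-- `ψ` is flat and an eigenfunction up to a pointwise relative error `κ` -/
def NearE {d L : ℕ} [NeZero L] (lam κ e : ℝ) (V : AE.T d L → ℝ) (ψ : AE.T d L → ℝ) : Prop :=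
  (∀ x, 1 ≤ ψ x) ∧ (∀ x, ψ x ≤ 2) ∧ ∀ x, |Hop lam V ψ x - e * ψ x| ≤ κ * ψ x

section
variable {d L : ℕ} [NeZero L]

theorem vf' (lam : ℝ) (V ψ g : AE.T d L → ℝ) :
    ∑ x, (ψ x * g x) * Hop lam V (fun y => ψ y * g y) x =
      ∑ x, (ψ x * g x ^ 2) * Hop lam V ψ x +
      ∑ x, ∑ i : Fin d, ψ x * ψ (x + Pi.single i 1) * (g x - g (x + Pi.single i 1)) ^ 2 := by
  have h1 := AE.Lin.bilin ψ g g
  have h2 : ∀ x, g x * LapW ψ g x = (ψ x * g x) * Hop lam V (fun y => ψ y * g y) x -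
      (ψ x * g x ^ 2) * Hop lam V ψ x := by
    intro x
    rw [AE.Gs.lapW_hop lam V]
    ring
  rw [Finset.sum_congr rfl fun x _ => h2 x, Finset.sum_sub_distrib] at h1
  have h3 : ∀ (x : AE.T d L) (i : Fin d), ψ x * ψ (x + Pi.single i 1) *
      ((g x - g (x + Pi.single i 1)) * (g x - g (x + Pi.single i 1))) =
      ψ x * ψ (x + Pi.single i 1) * (g x - g (x + Pi.single i 1)) ^ 2 := fun x i => by ring
  simp only [h3] at h1
  linarith

theorem vlow' {lam κ e : ℝ} {V ψ : AE.T d L → ℝ} (h : NearE lam κ e V ψ) (f : AE.T d L → ℝ) :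
    (e - κ) * ∑ x, f x ^ 2 ≤ ∑ x, f x * Hop lam V f x := by
  obtain ⟨h1, -, h3⟩ := h
  have h2 := vf' lam V ψ (fun x => f x / ψ x)
  have h4 : ∀ x, ψ x * (f x / ψ x) = f x := fun x => by
    have := h1 x
    field_simp
  simp only [h4] at h2
  have h5 : 0 ≤ ∑ x, ∑ i : Fin d, ψ x * ψ (x + Pi.single i 1) *
      (f x / ψ x - f (x + Pi.single i 1) / ψ (x + Pi.single i 1)) ^ 2 := by
    refine Finset.sum_nonneg fun x _ => Finset.sum_nonneg fun i _ => ?_
    have := h1 x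
    have := h1 (x + Pi.single i 1)
    positivity
  have h6 : (e - κ) * ∑ x, f x ^ 2 ≤ ∑ x, ψ x * (f x / ψ x) ^ 2 * Hop lam V ψ x := by
    rw [Finset.mul_sum]
    refine Finset.sum_le_sum fun x _ => ?_
    have a1 := h1 x
    have a2 := (abs_le.1 (h3 x)).1
    have a3 : (e - κ) * ψ x ≤ Hop lam V ψ x := by linarith
    have a4 : 0 ≤ ψ x * (f x / ψ x) ^ 2 := by positivity
    calc (e - κ) * f x ^ 2 = ψ x * (f x / ψ x) ^ 2 * ((e - κ) * ψ x) := by
          field_simp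
      _ ≤ _ := mul_le_mul_of_nonneg_left a3 a4
  linarith

theorem vup' {lam κ e : ℝ} {V ψ : AE.T d L → ℝ} (h : NearE lam κ e V ψ) (χ : AE.T d L → ℝ) :
    ∑ x, (ψ x * χ x) * Hop lam V (fun y => ψ y * χ y) x ≤
      (e + κ) * ∑ x, (ψ x * χ x) ^ 2 + 4 * D χ := by
  obtain ⟨h1, h2, h3⟩ := h
  rw [vf' lam V ψ χ]
  have h5 : ∑ x, ∑ i : Fin d, ψ x * ψ (x + Pi.single i 1) * (χ x - χ (x + Pi.single i 1)) ^ 2 ≤
      4 * D χ := by
    unfold D
    rw [Finset.mul_sum]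
    refine Finset.sum_le_sum fun x _ => ?_
    rw [Finset.mul_sum]
    refine Finset.sum_le_sum fun i _ => ?_
    have a1 := h1 x
    have a2 := h1 (x + Pi.single i 1)
    have a3 := h2 x
    have a4 := h2 (x + Pi.single i 1)
    have : ψ x * ψ (x + Pi.single i 1) ≤ 4 := by nlinarith
    exact mul_le_mul_of_nonneg_right this (sq_nonneg _)
  have h6 : ∑ x, ψ x * χ x ^ 2 * Hop lam V ψ x ≤ (e + κ) * ∑ x, (ψ x * χ x) ^ 2 := by
    rw [Finset.mul_sum]
    refine Finset.sum_le_sum fun x _ => ?_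
    have a1 := h1 x
    have a2 := (abs_le.1 (h3 x)).2
    have a3 : Hop lam V ψ x ≤ (e + κ) * ψ x := by linarith
    have a4 : 0 ≤ ψ x * χ x ^ 2 := by positivity
    calc ψ x * χ x ^ 2 * Hop lam V ψ x ≤ ψ x * χ x ^ 2 * ((e + κ) * ψ x) :=
          mul_le_mul_of_nonneg_left a3 a4
      _ = _ := by ring
  linarith

theorem pt' {lam κ e : ℝ} {V ψ : AE.T d L → ℝ} (h : NearE lam κ e V ψ) (x : AE.T d L) :
    |lam * V x - e| ≤ 2 * d + κ := by
  obtain ⟨h1, h2, h3⟩ := h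
  have h4 := h3 x
  unfold Hop at h4
  set S := ∑ i : Fin d, (2 * ψ x - ψ (x + Pi.single i 1) - ψ (x - Pi.single i 1)) with hS
  have h5 : S ≤ ∑ _i : Fin d, (2 : ℝ) := by
    refine Finset.sum_le_sum fun i _ => ?_
    linarith [h2 x, h1 (x + Pi.single i 1), h1 (x - Pi.single i 1)]
  have h6 : ∑ _i : Fin d, (-2 : ℝ) ≤ S := by
    refine Finset.sum_le_sum fun i _ => ?_
    linarith [h1 x, h2 (x + Pi.single i 1), h2 (x - Pi.single i 1)]
  rw [Finset.sum_const, Finset.card_univ, Fintype.card_fin, nsmul_eq_mul] at h5 h6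
  have hx := h1 x
  have hd0 : (0 : ℝ) ≤ d := Nat.cast_nonneg d
  rw [abs_le] at h4 ⊢
  constructor
  · by_contra hc
    push Not at hc
    nlinarith [mul_lt_mul_of_pos_right hc (by linarith : 0 < ψ x)]
  · by_contra hc
    push Not at hc
    nlinarith [mul_lt_mul_of_pos_right hc (by linarith : 0 < ψ x)]

end

section tr
variable {d L L0 : ℕ} [NeZero L] [NeZero L0]

theorem cmp' (hL : L ≤ L0) {lam κ κ0 e e0 : ℝ} {V0 ψ0 : AE.T d L0 → ℝ} {ψ χ : AE.T d L → ℝ}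
    (hχ : Int' χ) (h : NearE lam κ e (fun x => V0 (io d L L0 x)) ψ)
    (h0 : NearE lam κ0 e0 V0 ψ0) : (|e - e0| - (κ + κ0)) * ∑ x, χ x ^ 2 ≤ 4 * D χ := by
  have hD : 0 ≤ D χ := Finset.sum_nonneg fun x _ => Finset.sum_nonneg fun i _ => sq_nonneg _
  have hmono : ∀ (ψ : AE.T d L → ℝ), (∀ x, 1 ≤ ψ x) → ∑ x, χ x ^ 2 ≤ ∑ x, (ψ x * χ x) ^ 2 := by
    intro ψ hψ
    refine Finset.sum_le_sum fun x _ => ?_
    rw [mul_pow]
    have := hψ x
    nlinarith [sq_nonneg (χ x), mul_nonneg (sub_nonneg.2 this) (sq_nonneg (χ x))]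
  have hχ0 : 0 ≤ ∑ x, χ x ^ 2 := Finset.sum_nonneg fun x _ => sq_nonneg _
  -- conclusion from an inequality for the modified function
  have concl : ∀ (a : ℝ) (f : AE.T d L → ℝ), ∑ x, χ x ^ 2 ≤ ∑ x, f x ^ 2 →
      (a - (κ + κ0)) * ∑ x, f x ^ 2 ≤ 4 * D χ → (a - (κ + κ0)) * ∑ x, χ x ^ 2 ≤ 4 * D χ := by
    intro a f h1 h2
    rcases le_total 0 (a - (κ + κ0)) with h3 | h3
    · exact (mul_le_mul_of_nonneg_left h1 h3).trans h2
    · have : (a - (κ + κ0)) * ∑ x, χ x ^ 2 ≤ 0 := mul_nonpos_of_nonpos_of_nonneg h3 hχ0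
      linarith
  rcases abs_cases (e - e0) with ⟨ha, hb⟩ | ⟨ha, hb⟩
  · rw [ha]
    set f : AE.T d L → ℝ := fun x => ψ0 (io d L L0 x) * χ x with hf
    have hfi : Int' f := fun x hx => hχ x fun hc => hx (by rw [hf]; simp [hc])
    have hft : tp L0 f = fun y => ψ0 y * tp L0 χ y := by
      funext y
      by_cases hy : y ∈ Set.range (io d L L0)
      · obtain ⟨x, rfl⟩ := hy
        rw [tp_io hL, tp_io hL]
      · rw [tp_out f y hy, tp_out χ y hy, mul_zero]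
    have e1 := vlow' h f
    have e2 := tp_hop hL lam V0 f hfi
    have e3 := vup' h0 (tp L0 χ)
    rw [tp_D hL χ hχ] at e3
    have e4 : ∑ y, (ψ0 y * tp L0 χ y) ^ 2 = ∑ x, f x ^ 2 := by
      rw [← tp_sq hL f, hft]
    rw [e4] at e3
    rw [hft] at e2
    exact concl _ f (hmono (fun x => ψ0 (io d L L0 x)) (fun x => h0.1 _)) (by linarith)
  · rw [ha]
    set f : AE.T d L → ℝ := fun x => ψ x * χ x with hf
    have hfi : Int' f := fun x hx => hχ x fun hc => hx (by rw [hf]; simp [hc])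
    have e1 := vlow' h0 (tp L0 f)
    rw [tp_hop hL lam V0 f hfi, tp_sq hL f] at e1
    have e3 := vup' h χ
    refine concl _ f (hmono ψ h.1) ?_
    have : ∑ x, (ψ x * χ x) * Hop lam (fun x => V0 (io d L L0 x)) (fun y => ψ y * χ y) x =
        ∑ x, f x * Hop lam (fun x => V0 (io d L L0 x)) f x := rfl
    have e7 : ∑ x, (ψ x * χ x) ^ 2 = ∑ x, f x ^ 2 := rfl
    rw [this, e7] at e3
    linarith

theorem det' (hd : 1 ≤ d) (hL : L ≤ L0) {lam κ κ0 e e0 : ℝ} {V0 ψ0 : AE.T d L0 → ℝ}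
    {ψ : AE.T d L → ℝ} (h : NearE lam κ e (fun x => V0 (io d L L0 x)) ψ)
    (h0 : NearE lam κ0 e0 V0 ψ0) : |e - e0| ≤ κ + κ0 + 1024 * d / (L : ℝ) ^ 2 := by
  have hLpos : (0 : ℝ) < L := by exact_mod_cast Nat.pos_of_ne_zero (NeZero.ne L)
  have hdpos : (1 : ℝ) ≤ d := by exact_mod_cast hd
  by_cases hL4 : 4 ≤ L
  · have a1 := cmp' hL (ch_int (d := d) (L := L)) h h0
    have a2 := ch_D (d := d) (L := L) hd
    rw [ch_sq] at a1
    have a3 := SS_ge (L := L) hL4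
    have hSpos : 0 < SS L := lt_of_lt_of_le (by positivity) a3
    have a4 : SS L ^ d = SS L * SS L ^ (d - 1) := by
      rw [← pow_succ']
      congr 1
      omega
    rw [a4] at a1
    have hP : 0 < SS L ^ (d - 1) := by positivity
    set A := |e - e0| - (κ + κ0) with hA
    rcases le_total A 0 with hA0 | hA0
    · have : 0 ≤ 1024 * (d : ℝ) / (L : ℝ) ^ 2 := by positivity
      linarith
    have a5 : A * SS L ≤ 4 * (d * L) := by
      have : (A * SS L) * SS L ^ (d - 1) ≤ (4 * (d * L)) * SS L ^ (d - 1) := by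
        calc (A * SS L) * SS L ^ (d - 1) = A * (SS L * SS L ^ (d - 1)) := by ring
          _ ≤ 4 * D (ch d L) := a1
          _ ≤ 4 * (d * (L * SS L ^ (d - 1))) := by linarith
          _ = _ := by ring
      exact le_of_mul_le_mul_right this hP
    have a6 : A * ((L : ℝ) ^ 3 / 256) ≤ 4 * (d * L) :=
      (mul_le_mul_of_nonneg_left a3 hA0).trans a5
    have a8 : A ≤ 1024 * d / (L : ℝ) ^ 2 := by
      rw [le_div_iff₀ (by positivity)]
      have a7 : A * (L : ℝ) ^ 2 * L ≤ 1024 * d * L := by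
        have : A * (L : ℝ) ^ 2 * L = (A * ((L : ℝ) ^ 3 / 256)) * 256 := by ring
        rw [this]
        nlinarith
      exact le_of_mul_le_mul_right a7 hLpos
    linarith
  · have b1 := pt' h 0
    have b2 := pt' h0 (io d L L0 0)
    have b3 : |e - e0| ≤ 4 * d + κ + κ0 := by
      have : e - e0 = -(lam * V0 (io d L L0 0) - e) + (lam * V0 (io d L L0 0) - e0) := by ring
      rw [this]
      refine (abs_add_le _ _).trans ?_
      rw [abs_neg]
      linarith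
    have b4 : 4 * (d : ℝ) ≤ 1024 * d / (L : ℝ) ^ 2 := by
      rw [le_div_iff₀ (by positivity)]
      have hL3 : (L : ℝ) ≤ 3 := by exact_mod_cast (by omega : L ≤ 3)
      have hL9 : (L : ℝ) ^ 2 ≤ 3 ^ 2 := by gcongr
      have : 4 * (d : ℝ) * (L : ℝ) ^ 2 ≤ 4 * d * 3 ^ 2 := by gcongr
      linarith
    linarith

end tr

/-- the deterministic energies on tori of different sizes are close -/
theorem el' (d : ℕ) (hd : 1 ≤ d)
    (μ : Measure ℝ) [IsProbabilityMeasure μ] (lam : ℝ) (L L0 : ℕ) [NeZero L] [NeZero L0]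
    (hL : L ≤ L0) (E E' κ κ' : ℝ) (G : Set (AE.T d L → ℝ)) (G0 : Set (AE.T d L0 → ℝ))
    (hG : MeasurableSet G) (hG0 : MeasurableSet G0)
    (hP : 1 / 2 < (Measure.pi fun _ : AE.T d L => μ).real G)
    (hP0 : 1 / 2 < (Measure.pi fun _ : AE.T d L0 => μ).real G0)
    (hF : ∀ V ∈ G, ∃ ψ, NearE lam κ E V ψ) (hF0 : ∀ V ∈ G0, ∃ ψ, NearE lam κ' E' V ψ) :
    |E - E'| ≤ κ + κ' + 1024 * d / (L : ℝ) ^ 2 := by
  set R : (AE.T d L0 → ℝ) → (AE.T d L → ℝ) := fun V x => V (io d L L0 x) with hR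
  have hRm : Measurable R := measurable_pi_lambda _ fun x => measurable_pi_apply _
  have hmap := map_pi μ (io d L L0) (io_inj hL)
  have hP' : 1 / 2 < (Measure.pi fun _ : AE.T d L0 => μ).real (R ⁻¹' G) := by
    rw [← hmap, map_measureReal_apply hRm hG] at hP
    exact hP
  obtain ⟨V0, hV0, hV1⟩ : ∃ V0, V0 ∈ G0 ∧ R V0 ∈ G := by
    by_contra hcon
    push Not at hcon
    have hdisj : Disjoint G0 (R ⁻¹' G) := Set.disjoint_left.2 hcon
    have h1 := measureReal_union (μ := Measure.pi fun _ : AE.T d L0 => μ) hdisj (hRm hG)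
    have h2 : (Measure.pi fun _ : AE.T d L0 => μ).real (G0 ∪ R ⁻¹' G) ≤ 1 := measureReal_le_one
    linarith
  obtain ⟨ψ, hψ⟩ := hF _ hV1
  obtain ⟨ψ0, hψ0⟩ := hF0 _ hV0
  exact det' hd hL hψ hψ0

end Pool.Agent.V8H99.D3.Cmp
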