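import Pool.Agent.V8H99.D3.Cmp
import Pool.Agent.V8H99.AD.GreenB

/-! The events in dimension three and one edge of the spectrum. -/

set_option autoImplicit false
set_option linter.unusedSectionVars false

open scoped BigOperators
open MeasureTheory

namespace Pool.Agent.V8H99.D3.Side

open Pool.Agent.H4R2 Pool.Agent.H4R2.AE Pool.Agent.V8H99.D3.Cmp

/-- the good event for the massive equation -/
theorem ev3 (δ : ℝ) (hδ : 0 < δ) (hδ8 : δ ≤ 1 / 8) : ∃ c : ℝ, 0 < c ∧ c ≤ 1 ∧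
    ∀ (μ : Measure ℝ) [IsProbabilityMeasure μ], μ (Set.Icc (-1) 1)ᶜ = 0 →
    ∀ lam : ℝ, 0 < lam → ∀ (L : ℕ) [NeZero L] (κ ε : ℝ), 1 / (4 * (L : ℝ) ^ 2) ≤ κ →
    (L : ℝ) ^ 3 * (2 * Real.exp (-(c * √κ / lam ^ 2))) ≤ ε →
    ∃ E : ℝ, |E| ≤ lam ∧ ∃ G : Set (T 3 L → ℝ), MeasurableSet G ∧
      1 - ε ≤ (Measure.pi fun _ : T 3 L => μ).real G ∧
      ∀ V ∈ G, ∃ w : T 3 L → ℝ, (∀ x, |w x| ≤ δ) ∧
        ∀ x, ∑ i : Fin 3, ((1 - Real.exp (w (x + Pi.single i 1) - w x)) +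
          (1 - Real.exp (w (x - Pi.single i 1) - w x))) + lam * V x - E + κ * w x = 0 := by
  obtain ⟨R, hR, HR⟩ := Pool.Agent.V8H99.AD.green3
  set c : ℝ := min 1 (δ ^ 2 / (288 * R)) with hc
  have hc0 : 0 < c := by positivity
  refine ⟨c, hc0, min_le_left _ _, ?_⟩
  intro μ _ hμ lam hlam L _ κ ε hκ hε
  have hL : (0 : ℝ) < (L : ℝ) := by exact_mod_cast NeZero.pos L
  have hκ0 : 0 < κ := lt_of_lt_of_le (by positivity) hκ
  have hsκ := Real.sqrt_pos.2 hκ0
  have he : (1 : ℝ) / 2 ≤ Real.exp (-(4 * δ)) := by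
    have := Real.add_one_le_exp (-(4 * δ))
    linarith
  have hk : 1 / (8 * (L : ℝ) ^ 2) ≤ κ * Real.exp (-(4 * δ)) := by
    calc 1 / (8 * (L : ℝ) ^ 2) = 1 / (4 * (L : ℝ) ^ 2) * (1 / 2) := by field_simp; norm_num
      _ ≤ _ := by gcongr
  have hG : ∀ (u Gr : T 3 L → ℝ) (x0 : T 3 L), (∀ x, 1 / 2 ≤ u x) → (∀ x, 0 ≤ Gr x) →
      (∀ x, LapW u Gr x + κ * Real.exp (-(4 * δ)) * Gr x = if x = x0 then 1 else 0) →
      ∀ θ : ℝ, 0 < θ → ∑ z, min ((θ * Gr z) ^ 2) (θ * Gr z) ≤ (2 * R / √κ) * θ ^ (2 : ℝ) := by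
    intro u Gr x0 hu hGr hh θ hθ
    refine (HR L (κ * Real.exp (-(4 * δ))) hk u Gr x0 hu hGr hh θ hθ).trans ?_
    refine mul_le_mul_of_nonneg_right ?_ (Real.rpow_nonneg hθ.le _)
    rw [div_le_div_iff₀ (Real.sqrt_pos.2 (by positivity)) hsκ]
    have h1 : √κ ≤ 2 * √(κ * Real.exp (-(4 * δ))) := by
      rw [Real.sqrt_mul hκ0.le]
      have h2 : 1 / 2 ≤ √(Real.exp (-(4 * δ))) := by
        rw [Real.le_sqrt (by norm_num) (by positivity)]
        linarith
      nlinarith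
    nlinarith
  set θ : ℝ := δ * √κ / (144 * R * lam ^ 2) with hθ
  have hθ0 : 0 < θ := by positivity
  obtain ⟨E, hE, G, hGm, hP, hw⟩ := Goodt.good 3 L κ hκ0 2 (2 * R / √κ) (by norm_num)
    (by positivity) μ lam δ hlam hδ hδ8 hG θ hθ0
  have hexp : -(θ * δ) + 2 * R / √κ * (6 * lam * θ) ^ (2 : ℝ) / (2 - 1) ≤
      -(c * √κ / lam ^ 2) := by
    rw [Real.rpow_two]
    have e1 : -(θ * δ) + 2 * R / √κ * (6 * lam * θ) ^ 2 / (2 - 1) =
        -(δ ^ 2 / (288 * R) * √κ / lam ^ 2) := by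
      rw [hθ]
      have hs2 := Real.sq_sqrt hκ0.le
      field_simp
      ring
    rw [e1]
    apply neg_le_neg
    have : c ≤ δ ^ 2 / (288 * R) := min_le_right _ _
    gcongr
  have hP2 : (Measure.pi fun _ : T 3 L => μ).real Gᶜ ≤ ε := by
    refine hP.trans (le_trans ?_ hε)
    gcongr
  obtain ⟨G', hG', hP', hV'⟩ := Arith.pi_real_inter μ hμ G hGm _ hP2
  exact ⟨E, hE, G', hG', hP', fun V hV => hw V (hV' V hV).1 (hV' V hV).2⟩

/-- the massive state is flat and an approximate eigenfunction -/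
theorem near_of_mass {d L : ℕ} [NeZero L] (lam E κ δ : ℝ) (hκ : 0 ≤ κ) (hδ8 : δ ≤ 1 / 8)
    (V w : T d L → ℝ) (hw : ∀ x, |w x| ≤ δ)
    (h : ∀ x, ∑ i : Fin d, ((1 - Real.exp (w (x + Pi.single i 1) - w x)) +
      (1 - Real.exp (w (x - Pi.single i 1) - w x))) + lam * V x - E + κ * w x = 0) :
    NearE lam κ E V (fun x => Real.exp (1 / 8) * Real.exp (w x)) := by
  have he : ∀ x, Real.exp (1 / 8) * Real.exp (w x) = Real.exp (1 / 8 + w x) := fun x =>
    (Real.exp_add _ _).symm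
  refine ⟨fun x => ?_, fun x => ?_, fun x => ?_⟩
  · show 1 ≤ Real.exp (1 / 8) * Real.exp (w x)
    rw [he]
    apply Real.one_le_exp
    linarith [(abs_le.1 (hw x)).1]
  · show Real.exp (1 / 8) * Real.exp (w x) ≤ 2
    rw [he]
    have h1 : Real.exp (1 / 8 + w x) ≤ Real.exp (1 / 4) :=
      Real.exp_le_exp.2 (by linarith [(abs_le.1 (hw x)).2])
    have h2 : Real.exp (1 / 4) ≤ 2 := by
      have h3 := Real.exp_bound_div_one_sub_of_interval (x := 1 / 4) (by norm_num) (by norm_num)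
      linarith
    linarith
  · have h1 := Core.hop_eq lam E κ V w h x
    have h2 : Hop lam V (fun x => Real.exp (1 / 8) * Real.exp (w x)) x =
        Real.exp (1 / 8) * Hop lam V (fun y => Real.exp (w y)) x := by
      unfold Hop
      rw [mul_add, Finset.mul_sum]
      congr 1
      · exact Finset.sum_congr rfl fun i _ => by ring
      · ring
    rw [h2, h1]
    have e1 : Real.exp (1 / 8) * ((E - κ * w x) * Real.exp (w x)) -
        E * (Real.exp (1 / 8) * Real.exp (w x)) =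
        -(κ * w x) * (Real.exp (1 / 8) * Real.exp (w x)) := by ring
    rw [e1, abs_mul, abs_neg, abs_mul, abs_of_nonneg hκ,
      abs_of_pos (by positivity : 0 < Real.exp (1 / 8) * Real.exp (w x))]
    have h3 : |w x| ≤ 1 := (hw x).trans (by linarith)
    have h4 : κ * |w x| ≤ κ := by nlinarith
    exact mul_le_mul_of_nonneg_right h4 (by positivity)

theorem near_of_flat {d L : ℕ} [NeZero L] (lam η κ E : ℝ) (hη : η ≤ 1) (V : T d L → ℝ)
    (h : Core.FlatE lam η κ E V) : ∃ ψ, NearE lam κ E V ψ := by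
  obtain ⟨E0, ψ, h1, h2, h3, -⟩ := h
  refine ⟨ψ, fun x => (h2 x).1, fun x => by linarith [(h2 x).2], fun x => ?_⟩
  rw [h3 x]
  have e : E0 * ψ x - E * ψ x = (E0 - E) * ψ x := by ring
  have hx := (h2 x).1
  rw [e, abs_mul, abs_of_pos (by linarith : 0 < ψ x)]
  exact mul_le_mul_of_nonneg_right h1 (by linarith)

/-- **one edge of the spectrum** -/
theorem side (M : ℝ) (hM : 0 < M) (η : ℝ) (hη : 0 < η) (hη' : η ≤ 1) :
    ∃ k K : ℝ, 0 < k ∧ k ≤ 1 / 3 ∧ 1 ≤ K ∧ ∀ (μ : Measure ℝ) [IsProbabilityMeasure μ],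
      μ (Set.Icc (-1) 1)ᶜ = 0 →
      ∀ lam : ℝ, 0 < lam → lam ≤ k → ∃ Es : ℝ, |Es| ≤ lam ∧
      (∀ (L : ℕ) [NeZero L], (L : ℝ) ≤ k / (lam ^ 2 * Real.log (1 / lam)) →
        ∃ G : Set (T 3 L → ℝ), MeasurableSet G ∧
          1 - Real.exp (-(k / (L * lam ^ 2))) ≤ (Measure.pi fun _ : T 3 L => μ).real G ∧
          ∀ V ∈ G, Core.FlatE lam η (K / (L : ℝ) ^ 2) Es V) ∧
      (μ ≤ ENNReal.ofReal M • (volume : Measure ℝ) →
      ∀ κ : ℝ, K * lam ^ 4 * Real.log (1 / lam) ^ 2 ≤ κ → κ ≤ 1 →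
        ∀ᵐ ω ∂(Measure.infinitePi fun _ : Fin 3 → ℤ => μ),
          LO.Main.Dec 3 (-1) (fun x => lam * ω x) (Set.Iic (Es - 6 - κ))
            (k * Real.sqrt κ / Real.log (1 / lam))) := by
  obtain ⟨C1, hC1, hflat⟩ := Core2.gen 3 (by norm_num)
  have hC10 : 0 < C1 := by linarith
  set δ : ℝ := min (1 / 8) (η / C1) with hδ
  have hδ0 : 0 < δ := by positivity
  have hδ8 : δ ≤ 1 / 8 := min_le_left _ _
  have hδC : δ ≤ η / C1 := min_le_right _ _
  obtain ⟨c, hc, hc1, HE⟩ := ev3 δ hδ0 hδ8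
  obtain ⟨C, hC, HB⟩ := LO.Main.below 3 (by norm_num) (M + 4 * M ^ 2) (by positivity)
  have hC0 : 0 < C := by linarith
  -- the size of the large torus
  set N : ℕ := ⌈5 * C⌉₊ with hN
  have hNC : 5 * C ≤ N := Nat.le_ceil _
  set K0 : ℝ := ((4 * N + 6) / c) ^ 2 with hK0
  have hK00 : 0 < K0 := by positivity
  have hsK0 : √K0 = (4 * N + 6) / c := Real.sqrt_sq (by positivity)
  set k : ℝ := min (1 / 3) (min (c / 28) (1 / (20 * C))) with hk
  have hk0 : 0 < k := by positivity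
  have hk3 : k ≤ 1 / 3 := min_le_left _ _
  have hkc : k ≤ c / 28 := (min_le_right _ _).trans (min_le_left _ _)
  have hkC : k ≤ 1 / (20 * C) := (min_le_right _ _).trans (min_le_right _ _)
  refine ⟨k, 4 + 2 * K0 + 3072, hk0, hk3, by linarith, ?_⟩
  intro μ _ hsupp lam hl hlk
  have hl3 : lam ≤ 1 / 3 := hlk.trans hk3
  have hl1 : lam ≤ 1 := by linarith
  set X : ℝ := Real.log (1 / lam) with hX
  have hX1 : 1 ≤ X := by
    rw [hX, Real.le_log_iff_exp_le (by positivity)]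
    have : (3 : ℝ) ≤ 1 / lam := by
      rw [le_div_iff₀ hl]; linarith
    exact (Real.exp_one_lt_d9.le.trans (by norm_num)).trans this
  have hX0 : 0 < X := by linarith
  have hexpX : ∀ n : ℕ, Real.exp (n * X) = (1 / lam) ^ n := by
    intro n
    rw [hX, ← Real.log_pow, Real.exp_log (by positivity)]
  -- the large torus
  set L0 : ℕ := ⌈(1 / lam) ^ N⌉₊ with hL0
  have h1l : 1 ≤ 1 / lam := by rw [le_div_iff₀ hl]; linarith
  have hLN : (1 / lam) ^ N ≤ (L0 : ℝ) := Nat.le_ceil _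
  have hLN1 : (1 : ℝ) ≤ (1 / lam) ^ N := one_le_pow₀ h1l
  have hL0le : (L0 : ℝ) ≤ 2 * (1 / lam) ^ N := by
    have := (Nat.ceil_lt_add_one (by linarith : 0 ≤ (1 / lam) ^ N)).le
    rw [← hL0] at this
    linarith
  have hL01 : (1 : ℝ) ≤ L0 := hLN1.trans hLN
  have hL0pos : 0 < L0 := by exact_mod_cast (by linarith : (0 : ℝ) < L0)
  have : NeZero L0 := ⟨hL0pos.ne'⟩
  set κ0 : ℝ := K0 * lam ^ 4 * X ^ 2 with hκ0
  have hκ00 : 0 < κ0 := by positivity
  have hsκ0 : √κ0 = √K0 * lam ^ 2 * X := by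
    have : κ0 = (√K0 * lam ^ 2 * X) ^ 2 := by
      rw [mul_pow, mul_pow, Real.sq_sqrt hK00.le, hκ0]
      ring
    rw [this, Real.sqrt_sq (by positivity)]
  have hNC5 : (5 : ℝ) ≤ N := by linarith
  have hmass : 1 / (4 * (L0 : ℝ) ^ 2) ≤ κ0 := by
    have h1 : (1 / lam) ^ 2 ≤ L0 := by
      refine le_trans ?_ hLN
      apply pow_le_pow_right₀ h1l
      have : (2 : ℝ) ≤ N := by linarith
      exact_mod_cast this
    have h2 : 1 / (L0 : ℝ) ≤ lam ^ 2 := by
      rw [div_le_iff₀ (by linarith)]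
      have h3 := mul_le_mul_of_nonneg_left h1 (sq_nonneg lam)
      have h4 : lam ^ 2 * (1 / lam) ^ 2 = 1 := by
        rw [← mul_pow, mul_one_div_cancel hl.ne', one_pow]
      linarith
    have hK01 : 1 ≤ K0 := by
      rw [hK0]
      apply one_le_pow₀
      rw [le_div_iff₀ hc]
      have : (0 : ℝ) ≤ N := Nat.cast_nonneg _
      linarith
    have hX2 : 1 ≤ X ^ 2 := one_le_pow₀ hX1
    have h5 : (1 / (L0 : ℝ)) ^ 2 ≤ (lam ^ 2) ^ 2 := pow_le_pow_left₀ (by positivity) h2 2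
    calc 1 / (4 * (L0 : ℝ) ^ 2) ≤ 1 / (L0 : ℝ) ^ 2 := by
          apply one_div_le_one_div_of_le (by positivity)
          nlinarith [sq_nonneg (L0 : ℝ)]
      _ = (1 / (L0 : ℝ)) ^ 2 := by rw [one_div_pow]
      _ ≤ lam ^ 4 := by rw [← pow_mul] at h5; exact h5
      _ = 1 * lam ^ 4 * 1 := by ring
      _ ≤ K0 * lam ^ 4 * X ^ 2 := by gcongr
  have hprob0 : (L0 : ℝ) ^ 3 * (2 * Real.exp (-(c * √κ0 / lam ^ 2))) ≤ lam ^ N := by
    have e1 : c * √κ0 / lam ^ 2 = ((4 * N + 6 : ℕ) : ℝ) * X := by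
      rw [hsκ0, hsK0]
      push_cast
      field_simp
    rw [e1, Real.exp_neg, hexpX]
    have h27 : (27 : ℝ) ≤ (1 / lam) ^ 3 := by
      have : (3 : ℝ) ≤ 1 / lam := by rw [le_div_iff₀ hl]; linarith
      calc (27 : ℝ) = 3 ^ 3 := by norm_num
        _ ≤ _ := by gcongr
    calc (L0 : ℝ) ^ 3 * (2 * ((1 / lam) ^ (4 * N + 6))⁻¹)
        ≤ (2 * (1 / lam) ^ N) ^ 3 * (2 * ((1 / lam) ^ (4 * N + 6))⁻¹) := by gcongr
      _ = 16 * ((1 / lam) ^ (3 * N) * ((1 / lam) ^ (4 * N + 6))⁻¹) := by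
          rw [mul_pow, ← pow_mul, mul_comm N 3]; ring
      _ ≤ (1 / lam) ^ 3 * ((1 / lam) ^ (3 * N) * ((1 / lam) ^ (4 * N + 6))⁻¹) := by
          gcongr
          linarith
      _ = (1 / lam) ^ (3 * N + 3) * ((1 / lam) ^ (4 * N + 6))⁻¹ := by
          rw [← mul_assoc, ← pow_add]
          congr 2
          ring
      _ ≤ lam ^ N := by
          rw [← div_eq_mul_inv, div_le_iff₀ (by positivity)]
          have e2 : lam ^ N * (1 / lam) ^ (4 * N + 6) = (1 / lam) ^ (3 * N + 6) := by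
            have : 4 * N + 6 = N + (3 * N + 6) := by ring
            rw [this, pow_add, ← mul_assoc, ← mul_pow, mul_one_div_cancel hl.ne', one_pow, one_mul]
          rw [e2]
          exact pow_le_pow_right₀ h1l (by omega)
  obtain ⟨Es, hEs, G0, hG0, hP0, hw0⟩ := HE μ hsupp lam hl L0 κ0 (lam ^ N) hmass hprob0
  have hnear0 : ∀ V ∈ G0, ∃ ψ, NearE lam κ0 Es V ψ := fun V hV => by
    obtain ⟨w, hw1, hw2⟩ := hw0 V hV
    exact ⟨_, near_of_mass lam Es κ0 δ hκ00.le hδ8 V w hw1 hw2⟩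
  have hlN : lam ^ N < 1 / 2 := by
    have hN1 : 1 ≤ N := by
      have : (1 : ℝ) ≤ N := by linarith
      exact_mod_cast this
    calc lam ^ N ≤ lam ^ 1 := pow_le_pow_of_le_one hl.le hl1 hN1
      _ < 1 / 2 := by rw [pow_one]; linarith
  refine ⟨Es, hEs, ?_, ?_⟩
  · intro L _ hL
    have hLpos : (0 : ℝ) < (L : ℝ) := by exact_mod_cast NeZero.pos L
    have hL2 : (L : ℝ) * (lam ^ 2 * X) ≤ k := by
      rwa [le_div_iff₀ (by positivity)] at hL
    have hLX : X ≤ k / (L * lam ^ 2) := by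
      rw [le_div_iff₀ (by positivity)]
      calc X * (L * lam ^ 2) = L * (lam ^ 2 * X) := by ring
        _ ≤ k := hL2
    have hLl : (L : ℝ) ≤ (1 / lam) ^ 2 := by
      have h1 : (L : ℝ) * lam ^ 2 ≤ 1 := by
        have : (L : ℝ) * lam ^ 2 ≤ L * (lam ^ 2 * X) := by
          have : lam ^ 2 ≤ lam ^ 2 * X := le_mul_of_one_le_right (by positivity) hX1
          gcongr
        linarith
      rw [one_div_pow, le_div_iff₀ (by positivity)]
      exact h1
    have hs : √(1 / (4 * (L : ℝ) ^ 2)) = 1 / (2 * L) := by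
      have : 1 / (4 * (L : ℝ) ^ 2) = (1 / (2 * L)) ^ 2 := by field_simp; norm_num
      rw [this, Real.sqrt_sq (by positivity)]
    have hprob : (L : ℝ) ^ 3 * (2 * Real.exp (-(c * √(1 / (4 * (L : ℝ) ^ 2)) / lam ^ 2))) ≤
        Real.exp (-(k / (L * lam ^ 2))) := by
      rw [hs]
      have e1 : c * (1 / (2 * (L : ℝ))) / lam ^ 2 = 14 * ((c / 28) / (L * lam ^ 2)) := by
        field_simp
        norm_num
      have h2 : k / (L * lam ^ 2) ≤ (c / 28) / (L * lam ^ 2) := by gcongr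
      have h3 : (L : ℝ) ^ 3 * 2 ≤ Real.exp (7 * X) := by
        have h4 : (L : ℝ) ^ 3 ≤ ((1 / lam) ^ 2) ^ 3 := by gcongr
        have h5 : (2 : ℝ) ≤ 1 / lam := by rw [le_div_iff₀ hl]; linarith
        have h6 := hexpX 7
        push_cast at h6
        rw [h6]
        calc (L : ℝ) ^ 3 * 2 ≤ ((1 / lam) ^ 2) ^ 3 * (1 / lam) := by gcongr
          _ = _ := by ring
      calc (L : ℝ) ^ 3 * (2 * Real.exp (-(c * (1 / (2 * (L : ℝ))) / lam ^ 2)))
          = ((L : ℝ) ^ 3 * 2) * Real.exp (-(c * (1 / (2 * (L : ℝ))) / lam ^ 2)) := by ring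
        _ ≤ Real.exp (7 * X) * Real.exp (-(c * (1 / (2 * (L : ℝ))) / lam ^ 2)) := by gcongr
        _ = Real.exp (7 * X + -(c * (1 / (2 * (L : ℝ))) / lam ^ 2)) := (Real.exp_add _ _).symm
        _ ≤ _ := by
          apply Real.exp_le_exp.2
          rw [e1]
          have : 0 < k / (L * lam ^ 2) := by positivity
          linarith
    obtain ⟨E, hE, G, hG, hP, hw⟩ := HE μ hsupp lam hl L (1 / (4 * (L : ℝ) ^ 2)) _ le_rfl hprob
    have hflatG : ∀ V ∈ G, Core.FlatE lam η (1 / (L : ℝ) ^ 2) E V := fun V hV => by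
      obtain ⟨w, hw1, hw2⟩ := hw V hV
      exact hflat L lam η E hη hη' V w (fun x => (hw1 x).trans hδC) hw2
    have hLL0 : L ≤ L0 := by
      have h1 : (L : ℝ) ≤ L0 := by
        refine hLl.trans (le_trans ?_ hLN)
        apply pow_le_pow_right₀ h1l
        have : (2 : ℝ) ≤ N := by linarith
        exact_mod_cast this
      exact_mod_cast h1
    have hPlow : 1 / 2 < (Measure.pi fun _ : T 3 L => μ).real G := by
      have h1 : Real.exp (-(k / (L * lam ^ 2))) ≤ Real.exp (-1) :=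
        Real.exp_le_exp.2 (by linarith)
      have h2 : Real.exp (-1) < 1 / 2 := by
        rw [Real.exp_neg, one_div]
        apply inv_strictAnti₀ (by norm_num)
        have := Real.add_one_lt_exp (one_ne_zero : (1 : ℝ) ≠ 0)
        linarith
      linarith
    have hdiff := el' 3 (by norm_num) μ lam L L0 hLL0 E Es (1 / (L : ℝ) ^ 2) κ0 G G0 hG hG0
      hPlow (by linarith) (fun V hV => near_of_flat lam η _ E hη' V (hflatG V hV)) hnear0
    have hκL : κ0 ≤ K0 / (L : ℝ) ^ 2 := by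
      rw [le_div_iff₀ (by positivity), hκ0]
      have h1 : (L * (lam ^ 2 * X)) ^ 2 ≤ 1 ^ 2 :=
        pow_le_pow_left₀ (by positivity) (by linarith) 2
      calc K0 * lam ^ 4 * X ^ 2 * (L : ℝ) ^ 2 = K0 * (L * (lam ^ 2 * X)) ^ 2 := by ring
        _ ≤ K0 * 1 ^ 2 := by gcongr
        _ = K0 := by ring
    refine ⟨G, hG, hP, fun V hV => ?_⟩
    obtain ⟨E0, ψ, h1, h2, h3, h4⟩ := hflatG V hV
    refine ⟨E0, ψ, ?_, h2, h3, h4⟩
    have e1 : E0 - Es = (E0 - E) + (E - Es) := by ring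
    rw [e1]
    refine (abs_add_le _ _).trans ?_
    have e2 : (4 + 2 * K0 + 3072) / (L : ℝ) ^ 2 = 4 / (L : ℝ) ^ 2 + 2 * (K0 / (L : ℝ) ^ 2) +
        1024 * (3 : ℕ) / (L : ℝ) ^ 2 := by push_cast; ring
    have e5 : 0 < K0 / (L : ℝ) ^ 2 := by positivity
    have e3 : 4 / (L : ℝ) ^ 2 = 4 * (1 / (L : ℝ) ^ 2) := by ring
    have e4 : 0 < 1 / (L : ℝ) ^ 2 := by positivity
    rw [e2, e3]
    linarith
  · intro hD κ hκ hκ1
    have hreg := LO.Lw.reg_bdd μ M hM hsupp hD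
    have hκ4 : 4 * lam ^ 4 ≤ κ := by
      refine le_trans ?_ hκ
      have hX2 : 1 ≤ X ^ 2 := one_le_pow₀ hX1
      calc 4 * lam ^ 4 = 4 * lam ^ 4 * 1 := by ring
        _ ≤ (4 + 2 * K0 + 3072) * lam ^ 4 * X ^ 2 := by
          gcongr
          linarith
    have hκpos : 0 < κ := lt_of_lt_of_le (by positivity) hκ4
    have hκκ0 : κ0 ≤ κ / 2 := by
      have h1 : 2 * κ0 ≤ (4 + 2 * K0 + 3072) * lam ^ 4 * X ^ 2 := by
        rw [hκ0]
        have : 0 ≤ (4 + 3072) * lam ^ 4 * X ^ 2 := by positivity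
        linarith
      linarith
    have hT : LO.TorusBound 3 L0 μ lam (Es - κ0) (lam ^ N) :=
      ⟨G0, hG0, hP0, fun V hV f => by
        obtain ⟨ψ, hψ⟩ := hnear0 V hV
        exact vlow' hψ f⟩
    have hbase : 2 / (κ / 2 * lam) ≤ (1 / lam) ^ 5 := by
      rw [one_div_pow, div_le_div_iff₀ (by positivity) (by positivity)]
      nlinarith
    have hpow : (2 / (κ / 2 * lam)) ^ C ≤ (1 / lam) ^ N := by
      calc (2 / (κ / 2 * lam)) ^ C ≤ ((1 / lam) ^ 5) ^ C :=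
            Real.rpow_le_rpow (by positivity) hbase hC0.le
        _ = (1 / lam) ^ (5 * C) := by
            rw [← Real.rpow_natCast (1 / lam) 5, ← Real.rpow_mul (by positivity)]
            norm_num
        _ ≤ (1 / lam) ^ (N : ℝ) := Real.rpow_le_rpow_of_exponent_le h1l hNC
        _ = _ := Real.rpow_natCast _ _
    have hp3 : (2 / (κ / 2 * lam)) ^ C * lam ^ N ≤ 1 := by
      calc (2 / (κ / 2 * lam)) ^ C * lam ^ N ≤ (1 / lam) ^ N * lam ^ N := by gcongr
        _ = 1 := by rw [← mul_pow, one_div_mul_cancel hl.ne', one_pow]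
    have hb := HB μ hreg lam hl hl1 L0 (Es - κ0) (lam ^ N) (by positivity) hT (κ / 2)
      (by positivity) (by linarith) (hpow.trans hLN) hp3
    filter_upwards [hb] with ω hω
    refine LO.Main.dec_mono _ _ _ _ _ _ hω ?_ ?_
    · apply Set.Iic_subset_Iic.2
      push_cast
      linarith
    · have hX2pos : 0 < Real.log (2 / (κ / 2 * lam)) := by
        apply Real.log_pos
        rw [one_lt_div (by positivity)]
        nlinarith
      have hlog : Real.log (2 / (κ / 2 * lam)) ≤ 5 * X := by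
        refine (Real.log_le_log (by positivity) hbase).trans ?_
        rw [Real.log_pow]
        push_cast
        exact le_rfl
      have hsq : Real.sqrt κ / 2 ≤ Real.sqrt (κ / 2) := by
        rw [Real.le_sqrt (by positivity) (by positivity), div_pow, Real.sq_sqrt hκpos.le]
        linarith
      have hkC' : k * (20 * C) ≤ 1 := by
        rwa [le_div_iff₀ (by positivity)] at hkC
      rw [div_le_div_iff₀ hX0 (by positivity)]
      have hsk := Real.sqrt_nonneg κ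
      calc k * √κ * (C * Real.log (2 / (κ / 2 * lam))) ≤ k * √κ * (C * (5 * X)) := by gcongr
        _ = (k * (20 * C)) * (√κ / 4) * X := by ring
        _ ≤ 1 * (√κ / 4) * X := by gcongr
        _ ≤ √(κ / 2) * X := by
            rw [one_mul]
            refine mul_le_mul_of_nonneg_right ?_ hX0.le
            linarith

end Pool.Agent.V8H99.D3.Side
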