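import Pool.Agent.V8H99.D3.Cheb
import Pool.Agent.V8H99.AD.GreenB
import Pool.Agent.H541R3.AND.Deloc

/-! The kernel on the torus in dimension three. -/

set_option autoImplicit false
set_option linter.unusedSectionVars false

open scoped BigOperators
open Polynomial

namespace Pool.Agent.V8H99.D3.Tor

open Pool.Agent.H4R2.AE Pool.Agent.H541R3.AND.Heat Pool.Agent.V8H99.D3.Cheb

section gen
variable {d L : ℕ} [NeZero L]

theorem hop_lin (lam : ℝ) (V f g : T d L → ℝ) (α β : ℝ) (x : T d L) :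
    Hop lam V (α • f + β • g) x = α * Hop lam V f x + β * Hop lam V g x := by
  unfold Hop
  simp only [Pi.add_apply, Pi.smul_apply, smul_eq_mul]
  have : ∑ i : Fin d, (2 * (α * f x + β * g x) -
      (α * f (x + Pi.single i 1) + β * g (x + Pi.single i 1)) -
      (α * f (x - Pi.single i 1) + β * g (x - Pi.single i 1))) =
      α * ∑ i : Fin d, (2 * f x - f (x + Pi.single i 1) - f (x - Pi.single i 1)) +
      β * ∑ i : Fin d, (2 * g x - g (x + Pi.single i 1) - g (x - Pi.single i 1)) := by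
    rw [Finset.mul_sum, Finset.mul_sum, ← Finset.sum_add_distrib]
    exact Finset.sum_congr rfl fun i _ => by ring
  rw [this]
  ring

/-- `QT` as a linear map -/
noncomputable def QTl (c0 b lam : ℝ) (V : T d L → ℝ) : Module.End ℝ (T d L → ℝ) where
  toFun := QT c0 b lam V
  map_add' f g := by
    funext x
    have h := hop_lin lam V f g 1 1 x
    rw [one_smul, one_smul] at h
    unfold QT
    rw [h]
    simp only [Pi.add_apply]
    ring
  map_smul' a f := by
    funext x
    have h := hop_lin lam V f 0 a 0 x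
    rw [smul_zero, add_zero] at h
    unfold QT
    rw [h]
    simp only [Pi.smul_apply, smul_eq_mul, RingHom.id_apply]
    ring

theorem QTl_apply (c0 b lam : ℝ) (V f : T d L → ℝ) : QTl c0 b lam V f = QT c0 b lam V f := rfl

theorem qt_symm (c0 b lam : ℝ) (V f g : T d L → ℝ) :
    ip (QTl c0 b lam V f) g = ip f (QTl c0 b lam V g) := by
  have h := Core.hop_symm lam V f g
  unfold ip
  simp only [QTl_apply]
  unfold QT
  have e1 : ∑ x, (f x - 1 / b * (Hop lam V f x - c0 * f x)) * g x =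
      (1 + c0 / b) * ∑ x, f x * g x - 1 / b * ∑ x, g x * Hop lam V f x := by
    rw [Finset.mul_sum, Finset.mul_sum, ← Finset.sum_sub_distrib]
    exact Finset.sum_congr rfl fun x _ => by ring
  have e2 : ∑ x, f x * (g x - 1 / b * (Hop lam V g x - c0 * g x)) =
      (1 + c0 / b) * ∑ x, f x * g x - 1 / b * ∑ x, f x * Hop lam V g x := by
    rw [Finset.mul_sum, Finset.mul_sum, ← Finset.sum_sub_distrib]
    exact Finset.sum_congr rfl fun x _ => by ring
  rw [e1, e2, h]

variable {lam E0 : ℝ} {V ψ : T d L → ℝ} (h1 : ∀ x, 1 ≤ ψ x) (h2 : ∀ x, ψ x ≤ 2)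
  (he : ∀ x, Hop lam V ψ x = E0 * ψ x)

include h1 he in
/-- the form of `H - E0` in the ground state representation -/
theorem form_eq (f : T d L → ℝ) : ∑ x, f x * (Hop lam V f x - E0 * f x) =
    ∑ x, ∑ i : Fin d, ψ x * ψ (x + Pi.single i 1) *
      (f x / ψ x - f (x + Pi.single i 1) / ψ (x + Pi.single i 1)) ^ 2 := by
  have h3 : ∀ x, ψ x * (f x / ψ x) = f x := fun x => by
    have := h1 x
    field_simp
  have h4 := Lin.bilin ψ (fun x => f x / ψ x) (fun x => f x / ψ x)
  have h5 : ∑ x, f x * (Hop lam V f x - E0 * f x) = ∑ x, (f x / ψ x) * LapW ψ (fun x => f x / ψ x) x := by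
    refine Finset.sum_congr rfl fun x _ => ?_
    rw [Gs.lapW_hop lam V ψ, he x]
    have e : (fun y => ψ y * (f y / ψ y)) = f := funext h3
    rw [e]
    have hx := h1 x
    field_simp
  rw [h5, h4]
  exact Finset.sum_congr rfl fun x _ => Finset.sum_congr rfl fun i _ => by ring

include h1 he in
theorem form_nonneg (f : T d L → ℝ) : 0 ≤ ∑ x, f x * (Hop lam V f x - E0 * f x) := by
  rw [form_eq h1 he]
  refine Finset.sum_nonneg fun x _ => Finset.sum_nonneg fun i _ => ?_
  have := h1 x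
  have := h1 (x + Pi.single i 1)
  positivity

include h1 h2 he in
/-- `‖(H - E0) f‖² ≤ 16 d ⟨f, (H - E0) f⟩` -/
theorem sq_le_form (f : T d L → ℝ) : ∑ x, (Hop lam V f x - E0 * f x) ^ 2 ≤
    16 * d * ∑ x, f x * (Hop lam V f x - E0 * f x) := by
  rw [form_eq h1 he]
  set g : T d L → ℝ := fun x => f x / ψ x with hg
  have h3 : ∀ x, ψ x * g x = f x := fun x => by
    simp only [hg]
    have := h1 x
    field_simp
  have h4 : ∀ x, Hop lam V f x - E0 * f x = LapW ψ g x / ψ x := by
    intro x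
    rw [Gs.lapW_hop lam V ψ, he x]
    have e : (fun y => ψ y * g y) = f := funext h3
    rw [e, ← h3 x]
    have hx := h1 x
    field_simp
  have h5 : ∀ x, (Hop lam V f x - E0 * f x) ^ 2 ≤ 8 * d * ∑ i : Fin d,
      (ψ x * ψ (x + Pi.single i 1) * (g x - g (x + Pi.single i 1)) ^ 2 +
        ψ x * ψ (x - Pi.single i 1) * (g x - g (x - Pi.single i 1)) ^ 2) := by
    intro x
    rw [h4, div_pow]
    have hx := h1 x
    have hb : (LapW ψ g x) ^ 2 / ψ x ^ 2 ≤ (LapW ψ g x) ^ 2 := by
      apply div_le_self (sq_nonneg _)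
      nlinarith
    refine hb.trans ?_
    unfold LapW
    have hcs : (∑ i : Fin d, (ψ x * ψ (x + Pi.single i 1) * (g x - g (x + Pi.single i 1)) +
        ψ x * ψ (x - Pi.single i 1) * (g x - g (x - Pi.single i 1)))) ^ 2 ≤
        d * ∑ i : Fin d, (ψ x * ψ (x + Pi.single i 1) * (g x - g (x + Pi.single i 1)) +
        ψ x * ψ (x - Pi.single i 1) * (g x - g (x - Pi.single i 1))) ^ 2 := by
      have := sq_sum_le_card_mul_sum_sq (s := (Finset.univ : Finset (Fin d)))
        (f := fun i => ψ x * ψ (x + Pi.single i 1) * (g x - g (x + Pi.single i 1)) +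
        ψ x * ψ (x - Pi.single i 1) * (g x - g (x - Pi.single i 1)))
      simpa using this
    refine hcs.trans ?_
    have hd0 : (0 : ℝ) ≤ d := Nat.cast_nonneg d
    rw [mul_comm (8 : ℝ) (d : ℝ), mul_assoc]
    refine mul_le_mul_of_nonneg_left ?_ hd0
    rw [Finset.mul_sum]
    refine Finset.sum_le_sum fun i _ => ?_
    have a1 : 0 ≤ ψ x * ψ (x + Pi.single i 1) := by
      have := h1 (x + Pi.single i 1)
      positivity
    have a2 : 0 ≤ ψ x * ψ (x - Pi.single i 1) := by
      have := h1 (x - Pi.single i 1)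
      positivity
    have a3 : ψ x * ψ (x + Pi.single i 1) ≤ 4 := by
      nlinarith [h2 x, h2 (x + Pi.single i 1), h1 x, h1 (x + Pi.single i 1)]
    have a4 : ψ x * ψ (x - Pi.single i 1) ≤ 4 := by
      nlinarith [h2 x, h2 (x - Pi.single i 1), h1 x, h1 (x - Pi.single i 1)]
    set p := ψ x * ψ (x + Pi.single i 1)
    set q := ψ x * ψ (x - Pi.single i 1)
    set u := g x - g (x + Pi.single i 1)
    set v := g x - g (x - Pi.single i 1)
    have b1 : (p * u + q * v) ^ 2 ≤ 2 * ((p * u) ^ 2 + (q * v) ^ 2) := by nlinarith [sq_nonneg (p * u - q * v)]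
    have b2 : (p * u) ^ 2 ≤ 4 * (p * u ^ 2) := by
      have : (p * u) ^ 2 = p * (p * u ^ 2) := by ring
      rw [this]
      exact mul_le_mul_of_nonneg_right a3 (by positivity)
    have b3 : (q * v) ^ 2 ≤ 4 * (q * v ^ 2) := by
      have : (q * v) ^ 2 = q * (q * v ^ 2) := by ring
      rw [this]
      exact mul_le_mul_of_nonneg_right a4 (by positivity)
    linarith
  refine (Finset.sum_le_sum fun x _ => h5 x).trans ?_
  rw [← Finset.mul_sum]
  have h6 : ∑ x, ∑ i : Fin d, (ψ x * ψ (x + Pi.single i 1) * (g x - g (x + Pi.single i 1)) ^ 2 +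
        ψ x * ψ (x - Pi.single i 1) * (g x - g (x - Pi.single i 1)) ^ 2) =
      2 * ∑ x, ∑ i : Fin d, ψ x * ψ (x + Pi.single i 1) * (g x - g (x + Pi.single i 1)) ^ 2 := by
    have e1 : ∀ i : Fin d, ∑ x, ψ x * ψ (x - Pi.single i 1) * (g x - g (x - Pi.single i 1)) ^ 2 =
        ∑ x, ψ x * ψ (x + Pi.single i 1) * (g x - g (x + Pi.single i 1)) ^ 2 := by
      intro i
      refine Fintype.sum_equiv (Equiv.subRight (Pi.single i (1 : ZMod L) : T d L)) _ _ fun x => ?_
      simp only [Equiv.subRight_apply, sub_add_cancel]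
      ring
    have e2 : ∑ x, ∑ i : Fin d, ψ x * ψ (x + Pi.single i 1) * (g x - g (x + Pi.single i 1)) ^ 2 =
        ∑ i : Fin d, ∑ x, ψ x * ψ (x + Pi.single i 1) * (g x - g (x + Pi.single i 1)) ^ 2 :=
      Finset.sum_comm
    rw [e2, Finset.sum_comm, Finset.mul_sum]
    refine Finset.sum_congr rfl fun i _ => ?_
    rw [Finset.sum_add_distrib, e1]
    ring
  rw [h6]
  apply le_of_eq
  ring

include h1 h2 he in
/-- contraction -/
theorem qt_contr (b : ℝ) (hb : 8 * (d : ℝ) + 1 ≤ b) (f : T d L → ℝ) :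
    ip (QTl E0 b lam V f) (QTl E0 b lam V f) ≤ ip f f := by
  have hd0 : (0 : ℝ) ≤ d := Nat.cast_nonneg d
  have hb0 : 0 < b := by linarith
  have h3 := sq_le_form h1 h2 he f
  have h4 := form_nonneg h1 he f
  set B := fun x => Hop lam V f x - E0 * f x with hB
  have e1 : ip (QTl E0 b lam V f) (QTl E0 b lam V f) = ip f f - 2 / b * ∑ x, f x * B x +
      1 / b ^ 2 * ∑ x, B x ^ 2 := by
    unfold ip
    simp only [QTl_apply]
    unfold QT
    rw [Finset.mul_sum, Finset.mul_sum, ← Finset.sum_sub_distrib, ← Finset.sum_add_distrib]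
    refine Finset.sum_congr rfl fun x _ => ?_
    simp only [hB]
    field_simp
    ring
  rw [e1]
  have h5 : 1 / b ^ 2 * ∑ x, B x ^ 2 ≤ 1 / b ^ 2 * (16 * d * ∑ x, f x * B x) :=
    mul_le_mul_of_nonneg_left h3 (by positivity)
  have h6 : 1 / b ^ 2 * (16 * d * ∑ x, f x * B x) ≤ 2 / b * ∑ x, f x * B x := by
    have : 1 / b ^ 2 * (16 * d * ∑ x, f x * B x) = (16 * d / b ^ 2) * ∑ x, f x * B x := by ring
    rw [this]
    refine mul_le_mul_of_nonneg_right ?_ h4
    rw [div_le_div_iff₀ (by positivity) hb0]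
    nlinarith
  linarith

include h1 he in
/-- existence of the resolvent -/
theorem resolvent (κ : ℝ) (hκ : 0 < κ) (g : T d L → ℝ) :
    ∃ F : T d L → ℝ, ∀ x, Hop lam V F x - E0 * F x + κ * F x = g x := by
  set A : Module.End ℝ (T d L → ℝ) :=
    { toFun := fun F x => Hop lam V F x - E0 * F x + κ * F x
      map_add' := by
        intro f g
        funext x
        have h := hop_lin lam V f g 1 1 x
        rw [one_smul, one_smul] at h
        rw [h]
        simp only [Pi.add_apply]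
        ring
      map_smul' := by
        intro a f
        funext x
        have h := hop_lin lam V f 0 a 0 x
        rw [smul_zero, add_zero] at h
        rw [h]
        simp only [Pi.smul_apply, smul_eq_mul, RingHom.id_apply]
        ring } with hA
  have hinj : Function.Injective A := by
    rw [← LinearMap.ker_eq_bot, LinearMap.ker_eq_bot']
    intro F hF
    have h3 : ∀ x, Hop lam V F x - E0 * F x + κ * F x = 0 := fun x => congrFun hF x
    have h4 : ∑ x, F x * (Hop lam V F x - E0 * F x + κ * F x) = 0 :=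
      Finset.sum_eq_zero fun x _ => by rw [h3 x, mul_zero]
    have h5 : ∑ x, F x * (Hop lam V F x - E0 * F x + κ * F x) =
        ∑ x, F x * (Hop lam V F x - E0 * F x) + κ * ∑ x, F x ^ 2 := by
      rw [Finset.mul_sum, ← Finset.sum_add_distrib]
      exact Finset.sum_congr rfl fun x _ => by ring
    have h6 := form_nonneg h1 he F
    have h7 : 0 ≤ ∑ x, F x ^ 2 := Finset.sum_nonneg fun x _ => sq_nonneg _
    have h8 : ∑ x, F x ^ 2 = 0 := by
      have : κ * ∑ x, F x ^ 2 ≤ 0 := by linarith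
      nlinarith
    funext x
    have h9 := (Finset.sum_eq_zero_iff_of_nonneg fun x _ => sq_nonneg (F x)).1 h8 x
      (Finset.mem_univ x)
    exact pow_eq_zero_iff (two_ne_zero) |>.1 h9
  obtain ⟨F, hF⟩ := LinearMap.injective_iff_surjective.1 hinj g
  exact ⟨F, fun x => congrFun hF x⟩

end gen

/-- **the kernel on the three dimensional torus** -/
theorem kernel_torus (b : ℝ) (hb : 25 ≤ b) : ∃ C : ℝ, 0 < C ∧
    ∀ (L : ℕ) [NeZero L] (lam E0 : ℝ) (V ψ : T 3 L → ℝ), (∀ x, 1 ≤ ψ x) → (∀ x, ψ x ≤ 2) →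
      (∀ x, Hop lam V ψ x = E0 * ψ x) → ∀ (z : T 3 L) (n : ℕ), 0 < n → n ≤ L →
        ∑ x, (aeval (QTl E0 b lam V) (S n) (Pi.single z 1) x) ^ 2 ≤ C * n := by
  obtain ⟨A, hA, HA⟩ := Weak.weak 3 (by norm_num)
  have hA0 : 0 < A := by linarith
  refine ⟨9 * b ^ 2 * (16 * (4 * √A)), by positivity, ?_⟩
  intro L _ lam E0 V ψ h1 h2 he z n hn hnL
  have hn0 : (0 : ℝ) < n := by exact_mod_cast hn
  have hn1 : (1 : ℝ) ≤ n := by exact_mod_cast hn
  have hL : (0 : ℝ) < (L : ℝ) := by exact_mod_cast NeZero.pos L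
  have hnL' : (n : ℝ) ≤ L := by exact_mod_cast hnL
  have hb0 : 0 < b := by linarith
  set κ : ℝ := b / (n : ℝ) ^ 2 with hκ
  have hκ0 : 0 < κ := by positivity
  obtain ⟨F, hF⟩ := resolvent h1 he κ hκ0 (Pi.single z 1)
  -- the Green function in the ground state representation
  have hz := h1 z
  set Gr : T 3 L → ℝ := fun x => F x / (ψ x * ψ z) with hGr
  have hFG : ∀ x, ψ x * Gr x = F x / ψ z := fun x => by
    simp only [hGr]
    have := h1 x
    field_simp
  have heq : ∀ x, LapW ψ Gr x + (κ * ψ x ^ 2) * Gr x = if x = z then 1 else 0 := by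
    intro x
    rw [Gs.lapW_hop lam V ψ, he x]
    have e : (fun y => ψ y * Gr y) = (1 / ψ z) • F + (0 : ℝ) • F := by
      funext y
      rw [hFG y]
      simp only [Pi.add_apply, Pi.smul_apply, smul_eq_mul]
      ring
    rw [e, hop_lin]
    have h3 := hF x
    have hx := h1 x
    have e2 : Gr x = F x / (ψ x * ψ z) := rfl
    rw [e2]
    have e3 : ψ x * (1 / ψ z * Hop lam V F x + 0 * Hop lam V F x) -
        ψ x * (F x / (ψ x * ψ z)) * (E0 * ψ x) + κ * ψ x ^ 2 * (F x / (ψ x * ψ z)) =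
        ψ x / ψ z * (Hop lam V F x - E0 * F x + κ * F x) := by
      field_simp
      ring
    rw [e3, h3]
    by_cases hxz : x = z
    · subst hxz
      rw [Pi.single_eq_same, if_pos rfl]
      field_simp
    · rw [Pi.single_eq_of_ne hxz, if_neg hxz, mul_zero]
  have hGr0 : ∀ x, 0 ≤ Gr x := by
    obtain ⟨m, -, hm⟩ := Finset.exists_min_image (Finset.univ : Finset (T 3 L)) Gr
      Finset.univ_nonempty
    have hm' : 0 ≤ Gr m := by
      by_contra hc
      push Not at hc
      have h3 : LapW ψ Gr m ≤ 0 := by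
        unfold LapW
        refine Finset.sum_nonpos fun i _ => ?_
        have a1 := hm (m + Pi.single i 1) (Finset.mem_univ _)
        have a2 := hm (m - Pi.single i 1) (Finset.mem_univ _)
        have b0 := h1 m
        have b1 := h1 (m + Pi.single i 1)
        have b2 := h1 (m - Pi.single i 1)
        have c1 : 0 ≤ ψ m * ψ (m + Pi.single i 1) * (Gr (m + Pi.single i 1) - Gr m) :=
          mul_nonneg (by positivity) (by linarith)
        have c2 : 0 ≤ ψ m * ψ (m - Pi.single i 1) * (Gr (m - Pi.single i 1) - Gr m) :=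
          mul_nonneg (by positivity) (by linarith)
        nlinarith
      have h4 := heq m
      have h5 : (0 : ℝ) ≤ if m = z then 1 else 0 := by split_ifs <;> norm_num
      have h6 : κ * ψ m ^ 2 * Gr m < 0 := by
        have := h1 m
        apply mul_neg_of_pos_of_neg (by positivity) hc
      linarith
    exact fun x => hm'.trans (hm x (Finset.mem_univ x))
  have hsum : ∑ x, Gr x ≤ 1 / κ := by
    have e1 : ∑ x, (LapW ψ Gr x + κ * ψ x ^ 2 * Gr x) = 1 := by
      simp only [heq]
      simp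
    rw [Finset.sum_add_distrib, Lin.sum_lapW, zero_add] at e1
    rw [le_div_iff₀ hκ0, mul_comm, ← e1, Finset.mul_sum]
    refine Finset.sum_le_sum fun x _ => ?_
    refine mul_le_mul_of_nonneg_right ?_ (hGr0 x)
    have hx := h1 x
    have hx2 : 1 ≤ ψ x ^ 2 := by nlinarith
    nlinarith
  have hweak := HA L ψ (fun x => κ * ψ x ^ 2) Gr z (fun x => by linarith [h1 x]) (fun x => by
    have hx := h1 x
    have a1 : 1 / (8 * (L : ℝ) ^ 2) ≤ κ := by
      rw [hκ, div_le_div_iff₀ (by positivity) (by positivity)]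
      have : (n : ℝ) ^ 2 ≤ (L : ℝ) ^ 2 := by gcongr
      nlinarith [sq_nonneg (L : ℝ)]
    have a2 : 1 ≤ ψ x ^ 2 := by nlinarith
    nlinarith) hGr0 heq
  have hp : ((3 : ℕ) : ℝ) / (((3 : ℕ) : ℝ) - 2) = 3 := by norm_num
  rw [hp] at hweak
  have hsq := Pool.Agent.V8H99.AD.sq_sum Gr A κ hGr0 hA0 hκ0 hweak hsum
  have hFsq : ∑ x, F x ^ 2 ≤ 16 * (4 * √A / √κ) := by
    refine le_trans ?_ (mul_le_mul_of_nonneg_left hsq (by norm_num))
    rw [Finset.mul_sum]
    refine Finset.sum_le_sum fun x _ => ?_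
    have e1 : F x = (ψ x * ψ z) * Gr x := by
      simp only [hGr]
      have := h1 x
      field_simp
    rw [e1, mul_pow]
    refine mul_le_mul_of_nonneg_right ?_ (sq_nonneg _)
    have a1 := h1 x
    have a2 := h2 x
    have a3 := h2 z
    have a4 : ψ x * ψ z ≤ 4 := by nlinarith
    have a5 : 0 ≤ ψ x * ψ z := by positivity
    nlinarith
  -- the resolvent of `1 - A`
  have hR : (b • F) - QTl E0 b lam V (b • F) + (1 / (n : ℝ) ^ 2) • (b • F) = Pi.single z 1 := by
    rw [map_smul]
    funext x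
    have h3 := hF x
    simp only [Pi.add_apply, Pi.sub_apply, Pi.smul_apply, smul_eq_mul, QTl_apply]
    unfold QT
    rw [← h3, hκ]
    field_simp
    ring
  have hk := kernel_bound (QTl E0 b lam V) (qt_symm E0 b lam V)
    (qt_contr h1 h2 he b (by push_cast; linarith)) n (1 / (n : ℝ) ^ 2) (by positivity) (b • F)
    (Pi.single z 1) hR
  have e3 : 1 / (n : ℝ) ^ 2 * (n : ℝ) ^ 2 + 2 = 3 := by
    field_simp
    norm_num
  rw [e3, nm_smul, abs_of_pos hb0] at hk
  have hk2 := pow_le_pow_left₀ (nm_nonneg _) hk 2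
  rw [mul_pow, mul_pow, nm_sq, nm_sq] at hk2
  have e4 : ip F F = ∑ x, F x ^ 2 := by
    unfold ip
    exact Finset.sum_congr rfl fun x _ => by ring
  have e5 : ∑ x, (aeval (QTl E0 b lam V) (S n) (Pi.single z 1) x) ^ 2 =
      ip (aeval (QTl E0 b lam V) (S n) (Pi.single z 1))
        (aeval (QTl E0 b lam V) (S n) (Pi.single z 1)) := by
    unfold ip
    exact Finset.sum_congr rfl fun x _ => by ring
  rw [e5]
  refine hk2.trans ?_
  rw [e4]
  have hsk : √κ = √b / n := by
    rw [hκ, Real.sqrt_div hb0.le, Real.sqrt_sq hn0.le]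
  have hsb : 1 ≤ √b := by
    rw [Real.one_le_sqrt]
    linarith
  have e6 : 4 * √A / √κ ≤ 4 * √A * n := by
    rw [hsk, div_div_eq_mul_div, div_le_iff₀ (by positivity)]
    have : 0 ≤ 4 * √A * n := by positivity
    nlinarith
  calc (3 : ℝ) ^ 2 * (b ^ 2 * ∑ x, F x ^ 2) ≤ 3 ^ 2 * (b ^ 2 * (16 * (4 * √A * n))) := by
        gcongr
        linarith
    _ = _ := by ring

end Pool.Agent.V8H99.D3.Tor
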